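import Mathlib

namespace Pool.Agent.P.MP_d1604f_al

/-- A rectangular matrix admits diagonal reduction: for some invertible `P`, `Q` the product
`P * A * Q` vanishes off the main diagonal and each diagonal entry divides the next one. -/
def AdmitsDiagonalReduction {R : Type} [CommRing R] {m n : ℕ}
    (A : Matrix (Fin m) (Fin n) R) : Prop :=
  ∃ (P : Matrix (Fin m) (Fin m) R) (Q : Matrix (Fin n) (Fin n) R), IsUnit P ∧ IsUnit Q ∧
    (∀ (i : Fin m) (j : Fin n), (i : ℕ) ≠ (j : ℕ) → (P * A * Q) i j = 0) ∧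
    (∀ (i i' : Fin m) (j j' : Fin n), (i : ℕ) = (j : ℕ) → (i' : ℕ) = (j' : ℕ) →
      (i' : ℕ) = (i : ℕ) + 1 → (P * A * Q) i j ∣ (P * A * Q) i' j')

/-- Hermite ring: every one-by-two matrix admits diagonal reduction. -/
def IsHermiteRing (R : Type) [CommRing R] : Prop :=
  ∀ A : Matrix (Fin 1) (Fin 2) R, AdmitsDiagonalReduction A

/-- Elementary divisor ring: every matrix of any size admits diagonal reduction. -/
def IsElementaryDivisorRing (R : Type) [CommRing R] : Prop :=
  ∀ (m n : ℕ) (A : Matrix (Fin m) (Fin n) R), AdmitsDiagonalReduction A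

end Pool.Agent.P.MP_d1604f_al
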