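import Pool.Agent.P.MP_d1604f_al.Defs

/-! Hermite rings satisfying the criterion of Kaplansky are elementary divisor rings. -/

namespace Pool.Agent.P.MP_d1604f_al

open Matrix

variable {T : Type} [CommRing T]

/-- Elementwise form of the Hermite property. -/
def Herm (T : Type) [CommRing T] : Prop :=
  ∀ x y : T, ∃ x' y' d u v : T, x = d * x' ∧ y = d * y' ∧ u * x' + v * y' = 1

/-- The condition of Kaplansky for a triple. -/
def Kap (a b c : T) : Prop :=
  ∃ P Q s t : T, s * (P * a) + t * (P * b + Q * c) = 1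

lemma Herm.isHermiteRing (h : Herm T) : IsHermiteRing T := by
  intro A
  obtain ⟨x', y', d, u, v, hx, hy, h1⟩ := h (A 0 0) (A 0 1)
  refine ⟨1, !![u, -y'; v, x'], isUnit_one, ?_, ?_, ?_⟩
  · rw [Matrix.isUnit_iff_isUnit_det, Matrix.det_fin_two_of]
    have : u * x' - -y' * v = 1 := by linear_combination h1
    rw [this]; exact isUnit_one
  · intro i j hij
    fin_cases i
    fin_cases j
    · simp at hij
    · simp [Matrix.mul_apply, Fin.sum_univ_two, hx, hy]
      ring
  · intro i i' j j' _ _ h3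
    omega

lemma kap_of_edr (h : IsElementaryDivisorRing T) (a b c α β γ : T)
    (h1 : α * a + β * b + γ * c = 1) : Kap a b c := by
  obtain ⟨P, Q, hP, hQ, hd, hdiv⟩ := h 2 2 !![a, b; 0, c]
  set D := P * !![a, b; 0, c] * Q with hD
  have hall : ∀ i j, D 0 0 ∣ D i j := by
    intro i j
    fin_cases i <;> fin_cases j
    · exact dvd_rfl
    · have := hd 0 1 (by simp)
      simp [this]
    · have := hd 1 0 (by simp)
      simp [this]
    · exact hdiv 0 1 0 1 rfl rfl rfl
  obtain ⟨P', hP'⟩ := hP.exists_left_inv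
  obtain ⟨Q', hQ'⟩ := hQ.exists_right_inv
  have hM : (!![a, b; 0, c] : Matrix (Fin 2) (Fin 2) T) = P' * D * Q' := by
    rw [hD]
    calc (!![a, b; 0, c] : Matrix (Fin 2) (Fin 2) T)
        = (P' * P) * !![a, b; 0, c] * (Q * Q') := by rw [hP', hQ']; simp
      _ = _ := by simp only [Matrix.mul_assoc]
  have hent : ∀ i j, D 0 0 ∣ (!![a, b; 0, c] : Matrix (Fin 2) (Fin 2) T) i j := by
    intro i j
    rw [hM]
    simp only [Matrix.mul_apply]
    refine Finset.dvd_sum fun k _ => Dvd.dvd.mul_right (Finset.dvd_sum fun l _ => ?_) _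
    exact Dvd.dvd.mul_left (hall l k) _
  have ha : D 0 0 ∣ a := by simpa using hent 0 0
  have hb : D 0 0 ∣ b := by simpa using hent 0 1
  have hc : D 0 0 ∣ c := by simpa using hent 1 1
  have hone : D 0 0 ∣ 1 := by
    rw [← h1]
    exact dvd_add (dvd_add (ha.mul_left _) (hb.mul_left _)) (hc.mul_left _)
  obtain ⟨e, he⟩ := hone
  have h00 : D 0 0 = (P 0 0 * a) * Q 0 0 + (P 0 0 * b + P 0 1 * c) * Q 1 0 := by
    simp [hD, Matrix.mul_apply, Fin.sum_univ_two]
  refine ⟨P 0 0, P 0 1, Q 0 0 * e, Q 1 0 * e, ?_⟩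
  rw [he, h00]; ring

/-- A pivot dividing all entries can be produced by unimodular vectors. -/
def Piv (T : Type) [CommRing T] (m n : ℕ) : Prop :=
  ∀ A : Matrix (Fin m) (Fin n) T, ∃ (p p' : Fin m → T) (q q' : Fin n → T),
    p ⬝ᵥ p' = 1 ∧ q ⬝ᵥ q' = 1 ∧ ∀ i j, (p ᵥ* A) ⬝ᵥ q ∣ A i j

lemma Piv.symm {m n : ℕ} (h : Piv T m n) : Piv T n m := by
  intro A
  obtain ⟨p, p', q, q', hp, hq, hd⟩ := h Aᵀ
  refine ⟨q, q', p, p', hq, hp, fun i j => ?_⟩
  have : (q ᵥ* A) ⬝ᵥ p = (p ᵥ* Aᵀ) ⬝ᵥ q := by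
    rw [Matrix.vecMul_transpose, dotProduct_comm (A *ᵥ p), Matrix.dotProduct_mulVec]
  rw [this]
  exact hd j i

lemma Piv.step {m n : ℕ} (h2 : Piv T 2 n) (h : Piv T (m + 1) n) : Piv T (m + 2) n := by
  intro A
  obtain ⟨p2, p2', q2, q2', hp2, -, hd2⟩ := h (A.submatrix Fin.succ id)
  obtain ⟨p, p', q, q', hp, hq, hd⟩ := h2 (Matrix.of ![A 0, p2 ᵥ* (A.submatrix Fin.succ id)])
  refine ⟨Fin.cons (p 0) (fun i => p 1 * p2 i), Fin.cons (p' 0) (fun i => p' 1 * p2' i),
    q, q', ?_, hq, ?_⟩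
  · have e1 : ∑ i, p 1 * p2 i * (p' 1 * p2' i) = p 1 * p' 1 * (p2 ⬝ᵥ p2') := by
      simp only [dotProduct, Finset.mul_sum]
      exact Finset.sum_congr rfl fun i _ => by ring
    rw [dotProduct, Fin.sum_univ_succ]
    simp only [Fin.cons_zero, Fin.cons_succ]
    rw [e1, hp2, mul_one, ← hp]
    simp [dotProduct, Fin.sum_univ_two]
  · have e2 : (Fin.cons (p 0) (fun i => p 1 * p2 i) : Fin (m + 2) → T) ᵥ* A =
        p ᵥ* (Matrix.of ![A 0, p2 ᵥ* (A.submatrix Fin.succ id)]) := by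
      funext j
      simp only [Matrix.vecMul, dotProduct, Fin.sum_univ_two, Matrix.of_apply]
      rw [Fin.sum_univ_succ]
      simp [Finset.mul_sum, mul_assoc, Matrix.vecMul, dotProduct]
    rw [e2]
    intro i j
    refine Fin.cases ?_ (fun i => ?_) i
    · simpa using hd 0 j
    · refine dvd_trans ?_ (hd2 i j)
      exact Finset.dvd_sum fun k _ => Dvd.dvd.mul_right (by simpa using hd 1 k) _

lemma Piv.all {n : ℕ} (h1 : Piv T 1 n) (h2 : Piv T 2 n) (m : ℕ) : Piv T (m + 1) n := by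
  induction m with
  | zero => exact h1
  | succ m ih => exact h2.step ih

lemma piv_one_one : Piv T 1 1 := by
  intro A
  refine ⟨1, 1, 1, 1, by simp [dotProduct], by simp [dotProduct], fun i j => ?_⟩
  fin_cases i; fin_cases j
  simp [dotProduct, Matrix.vecMul]

lemma piv_two_one (h : Herm T) : Piv T 2 1 := by
  intro A
  obtain ⟨x', y', d, u, v, hx, hy, h1⟩ := h (A 0 0) (A 1 0)
  refine ⟨![u, v], ![x', y'], 1, 1, by simpa [dotProduct] using h1, by simp [dotProduct],
    fun i j => ?_⟩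
  have : (![u, v] ᵥ* A) ⬝ᵥ (1 : Fin 1 → T) = d := by
    simp [dotProduct, Matrix.vecMul, Fin.sum_univ_two, hx, hy]
    linear_combination d * h1
  rw [this]
  fin_cases i <;> fin_cases j
  · exact ⟨x', hx⟩
  · exact ⟨y', hy⟩

lemma piv_two_two (h : Herm T)
    (hk : ∀ a b c α β γ : T, α * a + β * b + γ * c = 1 → Kap a b c) : Piv T 2 2 := by
  intro A
  obtain ⟨x', y', d, u, v, hx, hy, h1⟩ := h (A 0 0) (A 1 0)
  obtain ⟨b1, c1, e, u1, v1, hb, hc, h2⟩ :=
    h (u * A 0 1 + v * A 1 1) (-y' * A 0 1 + x' * A 1 1)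
  obtain ⟨a', e', g, u2, v2, hd, he, h3⟩ := h d e
  obtain ⟨P, Q, s, t, h4⟩ := hk a' (e' * b1) (e' * c1) u2 (v2 * u1) (v2 * v1)
    (by linear_combination h3 + v2 * e' * h2)
  refine ⟨![P * u - Q * y', P * v + Q * x'],
    ![x' * (s * a' + t * (e' * b1)) - v * (t * (e' * c1)),
      y' * (s * a' + t * (e' * b1)) + u * (t * (e' * c1))],
    ![s, t], ![P * a', P * (e' * b1) + Q * (e' * c1)], ?_, ?_, ?_⟩
  · simp [dotProduct, Fin.sum_univ_two]
    linear_combination h4 + (P * (s * a' + t * (e' * b1)) + Q * (t * (e' * c1))) * h1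
  · simp [dotProduct, Fin.sum_univ_two]
    linear_combination h4
  · have : (![P * u - Q * y', P * v + Q * x'] ᵥ* A) ⬝ᵥ ![s, t] = g := by
      simp [dotProduct, Matrix.vecMul, Fin.sum_univ_two, hx, hy]
      rw [he] at hb hc
      rw [hd]
      linear_combination g * h4 + t * P * hb + t * Q * hc + s * P * g * a' * h1
    rw [this]
    intro i j
    fin_cases i <;> fin_cases j
    · exact ⟨a' * x', by simp [hx, hd]; ring⟩
    · refine ⟨e' * (x' * b1 - v * c1), ?_⟩
      simp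
      rw [he] at hb hc
      linear_combination x' * hb - v * hc - A 0 1 * h1
    · exact ⟨a' * y', by simp [hy, hd]; ring⟩
    · refine ⟨e' * (y' * b1 + u * c1), ?_⟩
      simp
      rw [he] at hb hc
      linear_combination y' * hb + u * hc - A 1 1 * h1

lemma piv_all (h : Herm T)
    (hk : ∀ a b c α β γ : T, α * a + β * b + γ * c = 1 → Kap a b c) (m n : ℕ) :
    Piv T (m + 1) (n + 1) := by
  have h1 : Piv T 1 (n + 1) := (Piv.all piv_one_one (piv_two_one h) n).symm
  have h2 : Piv T 2 (n + 1) := (Piv.all (piv_two_one h).symm (piv_two_two h hk) n).symm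
  exact Piv.all h1 h2 m

lemma Herm.vec (h : Herm T) (n : ℕ) (w : Fin (n + 1) → T) :
    ∃ (e : T) (w' w'' : Fin (n + 1) → T), w' ⬝ᵥ w'' = 1 ∧ ∀ i, w i = e * w' i := by
  induction n with
  | zero => exact ⟨w 0, 1, 1, by simp [dotProduct], fun i => by fin_cases i; simp⟩
  | succ n ih =>
    obtain ⟨e, w', w'', h1, h2⟩ := ih (fun i => w i.succ)
    obtain ⟨x', y', d, u, v, hx, hy, h3⟩ := h (w 0) e
    refine ⟨d, Fin.cons x' (fun i => y' * w' i), Fin.cons u (fun i => v * w'' i), ?_, ?_⟩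
    · have e1 : ∑ i, y' * w' i * (v * w'' i) = y' * v * (w' ⬝ᵥ w'') := by
        simp only [dotProduct, Finset.mul_sum]
        exact Finset.sum_congr rfl fun i _ => by ring
      rw [dotProduct, Fin.sum_univ_succ]
      simp only [Fin.cons_zero, Fin.cons_succ]
      rw [e1, h1]
      linear_combination h3
    · intro i
      refine Fin.cases ?_ (fun i => ?_) i
      · simpa using hx
      · simp only [Fin.cons_succ]
        rw [h2 i, hy]; ring

lemma isUnit_of_vecMul_surjective {n : ℕ} (P : Matrix (Fin n) (Fin n) T)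
    (h : ∀ v : Fin n → T, ∃ c, c ᵥ* P = v) : IsUnit P :=
  Matrix.vecMul_surjective_iff_isUnit.1 h

lemma Herm.complete (h : Herm T) (n : ℕ) (p p' : Fin (n + 1) → T) (hp : p ⬝ᵥ p' = 1) :
    ∃ P : Matrix (Fin (n + 1)) (Fin (n + 1)) T, IsUnit P ∧ P 0 = p := by
  induction n with
  | zero =>
    refine ⟨Matrix.of fun _ j => p j, ?_, rfl⟩
    rw [Matrix.isUnit_iff_isUnit_det, Matrix.det_fin_one]
    refine IsUnit.of_mul_eq_one (p' 0) ?_
    simpa [dotProduct] using hp
  | succ n ih =>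
    obtain ⟨e, w, w', h1, h2⟩ := h.vec n (fun i => p i.succ)
    obtain ⟨W, hW, hW0⟩ := ih w w' h1
    have h3 : p 0 * p' 0 + e * (∑ i, w i * p' i.succ) = 1 := by
      rw [← hp, dotProduct, Fin.sum_univ_succ (n := n + 1), Finset.mul_sum]
      congr 1
      exact Finset.sum_congr rfl fun i _ => by rw [h2 i]; ring
    set β := ∑ i, w i * p' i.succ
    refine ⟨Matrix.of (Fin.cons p (Fin.cons (Fin.cons (-β) (fun i => p' 0 * w i))
      (fun k => Fin.cons 0 (W k.succ)))), ?_, rfl⟩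
    apply isUnit_of_vecMul_surjective
    intro v
    obtain ⟨c, hc⟩ := Matrix.vecMul_surjective_iff_isUnit.2 hW (fun i => v i.succ)
    refine ⟨Fin.cons (v 0 * p' 0 + c 0 * β) (Fin.cons (-(v 0) * e + c 0 * p 0)
      (fun k => c k.succ)), ?_⟩
    funext j
    simp only [Matrix.vecMul, dotProduct, Matrix.of_apply]
    rw [Fin.sum_univ_succ, Fin.sum_univ_succ]
    simp only [Fin.cons_zero, Fin.cons_succ]
    refine Fin.cases ?_ (fun j => ?_) j
    · simp only [Fin.cons_zero, mul_zero, Finset.sum_const_zero]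
      linear_combination v 0 * h3
    · simp only [Fin.cons_succ]
      have h4 := congrFun hc j
      simp only [Matrix.vecMul, dotProduct] at h4
      rw [Fin.sum_univ_succ, hW0] at h4
      rw [h2 j, ← h4]
      linear_combination c 0 * w j * h3

/-- Block diagonal matrix with a scalar corner. -/
def bl {m n : ℕ} (y : T) (K : Matrix (Fin m) (Fin n) T) : Matrix (Fin (m + 1)) (Fin (n + 1)) T :=
  Matrix.of (Fin.cons (Fin.cons y (fun _ => 0)) (fun i => Fin.cons 0 (K i)))

lemma bl_mul {l m n : ℕ} (x y : T) (K : Matrix (Fin l) (Fin m) T) (L : Matrix (Fin m) (Fin n) T) :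
    bl x K * bl y L = bl (x * y) (K * L) := by
  ext i j
  refine Fin.cases ?_ (fun i => ?_) i <;> refine Fin.cases ?_ (fun j => ?_) j <;>
    simp [bl, Matrix.mul_apply, Fin.sum_univ_succ]

lemma bl_one {n : ℕ} : bl (1 : T) (1 : Matrix (Fin n) (Fin n) T) = 1 := by
  ext i j
  refine Fin.cases ?_ (fun i => ?_) i <;> refine Fin.cases ?_ (fun j => ?_) j <;>
    simp [bl, Matrix.one_apply, Fin.succ_ne_zero, (Fin.succ_ne_zero _).symm]

lemma isUnit_bl {n : ℕ} {P : Matrix (Fin n) (Fin n) T} (h : IsUnit P) : IsUnit (bl (1 : T) P) := by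
  obtain ⟨P', hP'⟩ := h.exists_right_inv
  refine IsUnit.of_mul_eq_one (bl 1 P') ?_
  rw [bl_mul, hP', mul_one, bl_one]

/-- Lower unitriangular matrix clearing the first column. -/
def lowM {n : ℕ} (l : Fin n → T) : Matrix (Fin (n + 1)) (Fin (n + 1)) T :=
  Matrix.of (Fin.cons (Fin.cons 1 (fun _ => 0))
    (fun i => Fin.cons (l i) ((1 : Matrix (Fin n) (Fin n) T) i)))

lemma isUnit_lowM {n : ℕ} (l : Fin n → T) : IsUnit (lowM l) := by
  refine IsUnit.of_mul_eq_one (lowM (-l)) ?_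
  ext i j
  refine Fin.cases ?_ (fun i => ?_) i <;> refine Fin.cases ?_ (fun j => ?_) j <;>
    simp [lowM, Matrix.mul_apply, Fin.sum_univ_succ, Matrix.one_apply, Fin.succ_ne_zero,
      (Fin.succ_ne_zero _).symm]

lemma clear {m n : ℕ} (B : Matrix (Fin (m + 1)) (Fin (n + 1)) T) (hB : ∀ i j, B 0 0 ∣ B i j) :
    ∃ (L : Matrix (Fin (m + 1)) (Fin (m + 1)) T) (R : Matrix (Fin (n + 1)) (Fin (n + 1)) T)
      (K : Matrix (Fin m) (Fin n) T), IsUnit L ∧ IsUnit R ∧ L * B * R = bl (B 0 0) K ∧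
      ∀ i j, B 0 0 ∣ K i j := by
  choose f hf using hB
  refine ⟨lowM (fun i => - f i.succ 0), (lowM (fun j => - f 0 j.succ))ᵀ,
    Matrix.of fun i j => B i.succ j.succ - B 0 0 * f i.succ 0 * f 0 j.succ, isUnit_lowM _,
    (Matrix.isUnit_transpose _).2 (isUnit_lowM _), ?_, ?_⟩
  · ext i j
    refine Fin.cases ?_ (fun i => ?_) i <;> refine Fin.cases ?_ (fun j => ?_) j <;>
      simp [lowM, bl, Matrix.mul_apply, Fin.sum_univ_succ, Matrix.one_apply]
    · rw [hf 0 j.succ]; ring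
    · rw [hf i.succ 0]; ring
    · rw [hf i.succ 0, hf 0 j.succ]; ring
  · intro i j
    simp only [Matrix.of_apply]
    exact dvd_sub ⟨_, hf _ _⟩ (by rw [mul_assoc]; exact dvd_mul_right _ _)

lemma dvd_mul_mul {m n : ℕ} {y : T} {K : Matrix (Fin m) (Fin n) T} (h : ∀ i j, y ∣ K i j)
    (P : Matrix (Fin m) (Fin m) T) (Q : Matrix (Fin n) (Fin n) T) (i : Fin m) (j : Fin n) :
    y ∣ (P * K * Q) i j := by
  simp only [Matrix.mul_apply]
  refine Finset.dvd_sum fun k _ => Dvd.dvd.mul_right (Finset.dvd_sum fun l _ => ?_) _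
  exact Dvd.dvd.mul_left (h l k) _

theorem edr_of_herm_kap (h : Herm T)
    (hk : ∀ a b c α β γ : T, α * a + β * b + γ * c = 1 → Kap a b c) :
    IsElementaryDivisorRing T := by
  intro m
  induction m with
  | zero => intro n A; exact ⟨1, 1, isUnit_one, isUnit_one, fun i => i.elim0, fun i => i.elim0⟩
  | succ m ih =>
    intro n A
    cases n with
    | zero =>
      exact ⟨1, 1, isUnit_one, isUnit_one, fun _ j => j.elim0, fun _ _ j => j.elim0⟩
    | succ n =>
      obtain ⟨p, p', q, q', hp, hq, hd⟩ := piv_all h hk m n A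
      obtain ⟨P, hP, hP0⟩ := h.complete m p p' hp
      obtain ⟨Q, hQ, hQ0⟩ := h.complete n q q' hq
      have h00 : (P * A * Qᵀ) 0 0 = (p ᵥ* A) ⬝ᵥ q := by
        rw [← hP0, ← hQ0]
        simp [Matrix.mul_apply, Matrix.vecMul, dotProduct]
      obtain ⟨L, R, K, hL, hR, hLR, hK⟩ := clear (P * A * Qᵀ)
        (fun i j => by rw [h00]; exact dvd_mul_mul hd P Qᵀ i j)
      obtain ⟨P1, Q1, hP1, hQ1, hz, hdv⟩ := ih n K
      have hfin : (bl 1 P1 * L * P) * A * (Qᵀ * R * bl 1 Q1) =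
          bl ((P * A * Qᵀ) 0 0) (P1 * K * Q1) := by
        calc _ = bl 1 P1 * (L * (P * A * Qᵀ) * R) * bl 1 Q1 := by simp only [Matrix.mul_assoc]
          _ = _ := by rw [hLR, bl_mul, bl_mul, one_mul, mul_one]
      refine ⟨bl 1 P1 * L * P, Qᵀ * R * bl 1 Q1, ((isUnit_bl hP1).mul hL).mul hP,
        (((Matrix.isUnit_transpose _).2 hQ).mul hR).mul (isUnit_bl hQ1), ?_, ?_⟩
      · rw [hfin]
        intro i j
        refine Fin.cases ?_ (fun i => ?_) i <;> refine Fin.cases ?_ (fun j => ?_) j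
        · simp
        · simp [bl]
        · simp [bl]
        · intro hij
          simpa [bl] using hz i j (by simpa using hij)
      · rw [hfin]
        intro i i' j j'
        refine Fin.cases ?_ (fun i' => ?_) i'
        · intro _ _ h3; simp at h3
        refine Fin.cases ?_ (fun j' => ?_) j'
        · intro _ h2 _; simp at h2
        refine Fin.cases ?_ (fun i => ?_) i <;> refine Fin.cases ?_ (fun j => ?_) j
        · intro _ _ _
          simpa [bl] using dvd_mul_mul hK P1 Q1 i' j'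
        · intro h1; simp at h1
        · intro h1; simp at h1
        · intro h1 h2 h3
          simpa [bl] using hdv i i' j j' (by simpa using h1) (by simpa using h2) (by simpa using h3)

end Pool.Agent.P.MP_d1604f_al
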