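import Pool.Agent.P.MP_d1604f_al.Val

/-! Valuative trivialisations of a patched line bundle and their behaviour in families. -/

namespace Pool.Agent.P.MP_d1604f_al

open Polynomial

open Classical in
/-- The transition factor of the bundle patched along `a = 0` by `b`. -/
noncomputable def beta {A K κ : Type} [CommRing A] [Field K] [Field κ] (a b : A)
    (ξ : A →+* K) (ξ0 : A →+* κ) : κ :=
  if ξ a ≠ 0 ∧ ξ0 a = 0 ∧ ξ0 b ≠ 0 then ξ0 b else 1

lemma beta_ne_zero {A K κ : Type} [CommRing A] [Field K] [Field κ] (a b : A)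
    (ξ : A →+* K) (ξ0 : A →+* κ) : beta a b ξ ξ0 ≠ 0 := by
  unfold beta
  split_ifs with h
  · exact h.2.2
  · exact one_ne_zero

lemma beta_pow {A K κ : Type} [CommRing A] [Field K] [Field κ] (a b : A) {q : ℕ} (hq : q ≠ 0)
    (ξ : A →+* K) (ξ0 : A →+* κ) : beta (a ^ q) (b ^ q) ξ ξ0 = beta a b ξ ξ0 ^ q := by
  unfold beta
  have e : (ξ (a ^ q) ≠ 0 ∧ ξ0 (a ^ q) = 0 ∧ ξ0 (b ^ q) ≠ 0) ↔
      (ξ a ≠ 0 ∧ ξ0 a = 0 ∧ ξ0 b ≠ 0) := by
    simp only [map_pow, ne_eq, pow_eq_zero_iff hq]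
  by_cases h : ξ a ≠ 0 ∧ ξ0 a = 0 ∧ ξ0 b ≠ 0
  · rw [if_pos h, if_pos (e.2 h), map_pow]
  · rw [if_neg h, if_neg (fun h' => h (e.1 h')), one_pow]

/-- The map `φ` kills all equations of `E`. -/
def Pt {A T : Type} [CommRing A] [CommRing T] (E : Set A) (φ : A →+* T) : Prop :=
  ∀ f ∈ E, φ f = 0

lemma Pt.comp {A T T' : Type} [CommRing A] [CommRing T] [CommRing T'] {E : Set A} {φ : A →+* T}
    (h : Pt E φ) (f : T →+* T') : Pt E (f.comp φ) := fun x hx => by
  rw [RingHom.comp_apply, h x hx, map_zero]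

/-- A value at every field point. -/
abbrev Sec (A : Type) [CommRing A] : Type 1 := ∀ (K : Type) [Field K], (A →+* K) → K

/-- An integer at every field point. -/
abbrev Ex (A : Type) [CommRing A] : Type 1 := ∀ (K : Type) [Field K], (A →+* K) → ℤ

/-- `σ` trivialises the product of the `m`-th power of the bundle of `(a, b)` and the
`j`-th power of the bundle of `(a1, b1)`, and `j` is constant along spans. -/
def Compat {A : Type} [CommRing A] (E : Set A) (a b a1 b1 : A) (σ : Sec A) (m : ℤ) (j : Ex A) :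
    Prop :=
  ∀ (V K κ : Type) [CommRing V] [Field K] [Field κ] (g : V →+* K) (r : V →+* κ), IsSpan g r →
    ∀ φ : A →+* V, Pt E φ → j K (g.comp φ) = j κ (r.comp φ) ∧
      Good g r (σ K (g.comp φ)) (beta a b (g.comp φ) (r.comp φ) ^ m *
        beta a1 b1 (g.comp φ) (r.comp φ) ^ j κ (r.comp φ) * σ κ (r.comp φ))

/-- The bundle of `(a, b)` has a valuative trivialisation on the zero set of `E`. -/
def Triv {A : Type} [CommRing A] (E : Set A) (a b : A) : Prop :=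
  ∃ σ : Sec A, ∀ (V K κ : Type) [CommRing V] [Field K] [Field κ] (g : V →+* K) (r : V →+* κ),
    IsSpan g r → ∀ φ : A →+* V, Pt E φ →
      Good g r (σ K (g.comp φ)) (beta a b (g.comp φ) (r.comp φ) * σ κ (r.comp φ))

/-- A trivialisation on the space of solutions of an auxiliary system with a scaling action. -/
structure Fam {A : Type} [CommRing A] (E : Set A) (a b : A) (ι : Type) where
  Sol : ∀ (T : Type) [CommRing T], (A →+* T) → (ι → T) → Prop
  map : ∀ (T T' : Type) [CommRing T] [CommRing T'] (f : T →+* T') (φ : A →+* T) (z : ι → T),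
    Sol T φ z → Sol T' (f.comp φ) (f ∘ z)
  wt : ι → ℤ
  scale : ∀ (T : Type) [CommRing T] (φ : A →+* T) (z : ι → T) (t : Tˣ),
    Sol T φ z → Sol T φ (fun i => ((t ^ wt i : Tˣ) : T) * z i)
  τ : ∀ (K : Type) [Field K], (A →+* K) → (ι → K) → K
  good : ∀ (V K κ : Type) [CommRing V] [Field K] [Field κ] (g : V →+* K) (r : V →+* κ),
    IsSpan g r → ∀ (φ : A →+* V) (z : ι → V), Pt E φ → Sol V φ z →
      Good g r (τ K (g.comp φ) (g ∘ z))
        (beta a b (g.comp φ) (r.comp φ) * τ κ (r.comp φ) (r ∘ z))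

variable {A : Type} [CommRing A] {E : Set A} {a b : A} {ι : Type}

lemma Fam.family (F : Fam E a b ι) {K D : Type} [Field K] [CommRing D] [IsDomain D] [IsBezout D]
    (c : K →+* D) (ξ : A →+* K) (hξ : Pt E ξ) (z : ι → D) (hz : F.Sol D (c.comp ξ) z) :
    ∃ u : Dˣ, ∀ e : D →+* K, e.comp c = RingHom.id K → e u = F.τ K ξ (e ∘ z) := by
  obtain ⟨u, hu⟩ := unit_of_spans
    (F.τ _ ((algebraMap D (FractionRing D)).comp (c.comp ξ)) (algebraMap D (FractionRing D) ∘ z))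
    (fun κ _ r => F.τ κ (r.comp (c.comp ξ)) (r ∘ z)) (by
      intro V κ _ _ i g r hs hg
      have h := F.good V _ κ g r hs (i.comp (c.comp ξ)) (i ∘ z) ((hξ.comp c).comp i)
        (F.map _ _ i _ _ hz)
      have hb : beta a b (g.comp (i.comp (c.comp ξ))) (r.comp (i.comp (c.comp ξ))) = 1 := by
        unfold beta
        rw [if_neg]
        rintro ⟨h1, h2, -⟩
        apply h1
        have h3 : ξ a = 0 := (map_eq_zero (r.comp (i.comp c))).1 h2
        simp [h3]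
      rw [hb, one_mul] at h
      rw [← hg]
      exact h)
  refine ⟨u, fun e he => ?_⟩
  rw [hu K e, ← RingHom.comp_assoc, he, RingHom.id_comp]

lemma Fam.line (F : Fam E a b ι) {K : Type} [Field K] (ξ : A →+* K) (hξ : Pt E ξ)
    (z z' : ι → K)
    (hz : F.Sol K[X] ((C : K →+* K[X]).comp ξ) (fun i => C (z i) + X * (C (z' i) - C (z i)))) :
    F.τ K ξ z = F.τ K ξ z' := by
  obtain ⟨u, hu⟩ := F.family C ξ hξ _ hz
  obtain ⟨c, -, hc⟩ := Polynomial.isUnit_iff.1 u.isUnit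
  have h0 := hu (evalRingHom 0) (by ext; simp)
  have h1 := hu (evalRingHom 1) (by ext; simp)
  have e0 : ((evalRingHom (0 : K)) ∘ fun i => C (z i) + X * (C (z' i) - C (z i))) = z := by
    funext i; simp
  have e1 : ((evalRingHom (1 : K)) ∘ fun i => C (z i) + X * (C (z' i) - C (z i))) = z' := by
    funext i; simp
  rw [e0, ← hc] at h0
  rw [e1, ← hc] at h1
  rw [← h0, ← h1]
  simp

open LaurentPolynomial in
lemma Fam.orbit (F : Fam E a b ι) {K : Type} [Field K] (ξ : A →+* K) (hξ : Pt E ξ)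
    (z : ι → K) (hz : F.Sol K ξ z) :
    ∃ (c : K) (j : ℤ), ∀ t : Kˣ,
      F.τ K ξ (fun i => ((t ^ F.wt i : Kˣ) : K) * z i) = c * (t : K) ^ j := by
  have := laurent_isBezout K
  have h1 := F.scale _ _ _ (isUnit_T (R := K) 1).unit
    (F.map K K[T;T⁻¹] LaurentPolynomial.C ξ z hz)
  obtain ⟨u, hu⟩ := F.family LaurentPolynomial.C ξ hξ _ h1
  obtain ⟨c, j, hc⟩ := laurent_unit u
  refine ⟨c, j, fun t => ?_⟩
  have h2 := hu (LaurentPolynomial.eval₂ (RingHom.id K) t) (by ext; simp)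
  rw [hc, eval₂_C_mul_T] at h2
  simp only [RingHom.id_apply, Units.val_zpow_eq_zpow_val] at h2 ⊢
  rw [h2]
  congr 1
  funext i
  simp only [Function.comp_apply, map_mul, LaurentPolynomial.eval₂_C, RingHom.id_apply]
  rw [map_units_zpow, IsUnit.unit_spec, eval₂_T]
  simp

lemma Fam.norm (F : Fam E a b ι) (w : A)
    (hw : ∀ (K : Type) [Field K] (ξ : A →+* K), Pt E ξ →
      ξ w ≠ 0 ∧ ∀ n : ℤ, ξ w ^ n = 1 → n = 0)
    (θ : ∀ (K : Type) [Field K], (A →+* K) → (ι → K) → K)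
    (Rg : ∀ (K : Type) [Field K], (A →+* K) → Prop)
    (hθ : ∀ (K : Type) [Field K] (ξ : A →+* K) (z : ι → K) (t : Kˣ),
      θ K ξ (fun i => ((t ^ F.wt i : Kˣ) : K) * z i) = t * θ K ξ z)
    (hR : ∀ (K : Type) [Field K] (ξ : A →+* K), Pt E ξ → Rg K ξ → ∀ z z', F.Sol K ξ z →
      F.Sol K ξ z' → F.τ K ξ z = F.τ K ξ z')
    (hN : ∀ (K : Type) [Field K] (ξ : A →+* K), Pt E ξ → ¬ Rg K ξ → ∀ z, F.Sol K ξ z →
      θ K ξ z ≠ 0)
    (hN' : ∀ (K : Type) [Field K] (ξ : A →+* K), Pt E ξ → ¬ Rg K ξ → ∀ z z', F.Sol K ξ z →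
      F.Sol K ξ z' → θ K ξ z = θ K ξ z' → F.τ K ξ z = F.τ K ξ z')
    (hex : ∀ (V K κ : Type) [CommRing V] [Field K] [Field κ] (g : V →+* K) (r : V →+* κ),
      IsSpan g r → ∀ φ : A →+* V, Pt E φ → ∃ z, F.Sol V φ z) :
    ∃ (c : Sec A) (j : Ex A), (∀ (K : Type) [Field K] (ξ : A →+* K), Pt E ξ → Rg K ξ → j K ξ = 0) ∧
      ∀ (V K κ : Type) [CommRing V] [Field K] [Field κ] (g : V →+* K) (r : V →+* κ),
        IsSpan g r → ∀ φ : A →+* V, Pt E φ → j K (g.comp φ) = j κ (r.comp φ) ∧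
        ∀ z, F.Sol V φ z →
          Good g r (c K (g.comp φ) * θ K (g.comp φ) (g ∘ z) ^ j κ (r.comp φ))
            (beta a b (g.comp φ) (r.comp φ) *
              (c κ (r.comp φ) * θ κ (r.comp φ) (r ∘ z) ^ j κ (r.comp φ))) := by
  have key : ∀ (K : Type) [Field K] (ξ : A →+* K), ∃ (c : K) (j : ℤ), Pt E ξ →
      (Rg K ξ → j = 0) ∧ ∀ z, F.Sol K ξ z → F.τ K ξ z = c * θ K ξ z ^ j := by
    intro K _ ξ
    by_cases hξ : Pt E ξ
    swap
    · exact ⟨0, 0, fun h => absurd h hξ⟩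
    obtain ⟨z0, hz0⟩ := hex K K K _ _ (IsSpan.of_field K) ξ hξ
    by_cases hrg : Rg K ξ
    · exact ⟨F.τ K ξ z0, 0, fun _ => ⟨fun _ => rfl, fun z hz => by
        rw [zpow_zero, mul_one]; exact hR K ξ hξ hrg z z0 hz hz0⟩⟩
    · obtain ⟨c, j, hc⟩ := F.orbit ξ hξ z0 hz0
      have h0 := hN K ξ hξ hrg z0 hz0
      refine ⟨c * (θ K ξ z0)⁻¹ ^ j, j, fun _ => ⟨fun h => absurd h hrg, fun z hz => ?_⟩⟩
      have h1 := hN K ξ hξ hrg z hz
      let t : Kˣ := Units.mk0 (θ K ξ z / θ K ξ z0) (div_ne_zero h1 h0)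
      have h2 := hN' K ξ hξ hrg z _ hz (F.scale K ξ z0 t hz0) (by
        rw [hθ]; simp only [t, Units.val_mk0]; field_simp)
      rw [h2, hc]
      simp only [t, Units.val_mk0]
      rw [div_eq_mul_inv, mul_zpow]
      ring
  choose c j hcj using key
  refine ⟨c, j, fun K _ ξ hξ => (hcj K ξ hξ).1, ?_⟩
  intro V K κ _ _ _ g r hs φ hφ
  have hg := (hcj K _ (hφ.comp g)).2
  have hr := (hcj κ _ (hφ.comp r)).2
  have hgood : ∀ z, F.Sol V φ z →
      Good g r (c K (g.comp φ) * θ K (g.comp φ) (g ∘ z) ^ j K (g.comp φ))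
        (beta a b (g.comp φ) (r.comp φ) *
          (c κ (r.comp φ) * θ κ (r.comp φ) (r ∘ z) ^ j κ (r.comp φ))) := by
    intro z hz
    rw [← hg _ (F.map _ _ g _ _ hz), ← hr _ (F.map _ _ r _ _ hz)]
    exact F.good V K κ g r hs φ z hφ hz
  have hj : j K (g.comp φ) = j κ (r.comp φ) := by
    obtain ⟨z, hz⟩ := hex V K κ g r hs φ hφ
    obtain ⟨hw0, hw1⟩ := hw κ _ (hφ.comp r)
    obtain ⟨t, ht⟩ := hs.loc (φ w) hw0
    have h1 := hgood z hz
    have h2 := hgood _ (F.scale V φ z t hz)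
    have e1 : (g ∘ fun i => ((t ^ F.wt i : Vˣ) : V) * z i) =
        fun i => (((Units.map (g : V →* K) t) ^ F.wt i : Kˣ) : K) * (g ∘ z) i := by
      funext i
      simp only [Function.comp_apply, map_mul]
      rw [← map_zpow]; rfl
    have e2 : (r ∘ fun i => ((t ^ F.wt i : Vˣ) : V) * z i) =
        fun i => (((Units.map (r : V →* κ) t) ^ F.wt i : κˣ) : κ) * (r ∘ z) i := by
      funext i
      simp only [Function.comp_apply, map_mul]
      rw [← map_zpow]; rfl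
    rw [e1, e2, hθ, hθ] at h2
    have h3 := h1.mul ((Good.of_isUnit (g := g) (r := r) t.isUnit).zpow (j K (g.comp φ)))
    have e3 : c K (g.comp φ) * θ K (g.comp φ) (g ∘ z) ^ j K (g.comp φ) * g t ^ j K (g.comp φ) =
        c K (g.comp φ) * (((Units.map (g : V →* K) t : Kˣ) : K) * θ K (g.comp φ) (g ∘ z)) ^
          j K (g.comp φ) := by
      rw [mul_zpow]
      simp only [Units.coe_map, MonoidHom.coe_coe]
      ring
    rw [e3] at h3
    have h4 := Good.unique hs.inj h3 h2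
    have h5 := h1.ne_zero.2
    rw [mul_zpow] at h4
    simp only [Units.coe_map, MonoidHom.coe_coe] at h4
    have h6 : r t ^ j K (g.comp φ) = r t ^ j κ (r.comp φ) := by
      apply mul_left_cancel₀ h5
      rw [h4]; ring
    have h7 : (r.comp φ) w = r t := by rw [ht]; rfl
    rw [h7] at hw0 hw1
    have h8 := hw1 (j K (g.comp φ) - j κ (r.comp φ)) (by
      rw [zpow_sub₀ hw0, h6, div_self (zpow_ne_zero _ hw0)])
    omega
  refine ⟨hj, fun z hz => ?_⟩
  have := hgood z hz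
  rw [hj] at this
  exact this

lemma unimod_conn {K α : Type} [Field K] (G : K → K → K → K → α)
    (h1 : ∀ x y u v u' v', u * x + v * y = 1 → u' * x + v' * y = 1 → G x y u v = G x y u' v')
    (h2 : ∀ x y x' y' u v, u * x + v * y = 1 → u * x' + v * y' = 1 → G x y u v = G x' y' u v)
    (x y u v : K) (h : u * x + v * y = 1) : G x y u v = G 0 1 0 1 := by
  have key : ∀ x y u v, x ≠ 0 → u * x + v * y = 1 → G x y u v = G 0 1 0 1 := by
    intro x y u v hx h
    calc G x y u v = G x y x⁻¹ 0 := h1 _ _ _ _ _ _ h (by simp [hx])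
      _ = G x 1 x⁻¹ 0 := h2 _ _ _ _ _ _ (by simp [hx]) (by simp [hx])
      _ = G x 1 0 1 := h1 _ _ _ _ _ _ (by simp [hx]) (by simp)
      _ = G 0 1 0 1 := h2 _ _ _ _ _ _ (by simp) (by simp)
  by_cases hx : x = 0
  · subst hx
    have h3 : v * y = 1 := by simpa using h
    calc G 0 y u v = G 0 y 0 v := h1 _ _ _ _ _ _ h (by simp [h3])
      _ = G 1 y 0 v := h2 _ _ _ _ _ _ (by simp [h3]) (by simp [h3])
      _ = G 0 1 0 1 := key _ _ _ _ one_ne_zero (by simp [h3])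
  · exact key x y u v hx h

end Pool.Agent.P.MP_d1604f_al
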