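import Pool.Agent.P.MP_d1604f_al.Fam

/-! Descent of valuative trivialisations along the two kinds of steps. -/

namespace Pool.Agent.P.MP_d1604f_al

open Polynomial

/-- Fresh variables: points can be modified on `v i` without changing the elements of `S`. -/
structure LiftData {A : Type} [CommRing A] (n : ℕ) (S : Set A) where
  L : ∀ (T : Type) [CommRing T], (A →+* T) → (Fin n → T) → (A →+* T)
  nat : ∀ (T T' : Type) [CommRing T] [CommRing T'] (f : T →+* T') (φ : A →+* T) (z : Fin n → T),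
    f.comp (L T φ z) = L T' (f.comp φ) (f ∘ z)
  fix : ∀ (T : Type) [CommRing T] (φ : A →+* T) (z : Fin n → T), ∀ s ∈ S, L T φ z s = φ s
  v : Fin n → A
  var : ∀ (T : Type) [CommRing T] (φ : A →+* T) (z : Fin n → T) (i : Fin n), L T φ z (v i) = z i

lemma exists_liftData {k : Type} [CommRing k] (n : ℕ) (S : Set (MvPolynomial ℕ k))
    (hS : S.Finite) : Nonempty (LiftData n S) := by
  classical
  obtain ⟨N, hN⟩ : ∃ N : ℕ, ∀ s ∈ S, ∀ i ∈ s.vars, i < N := by
    have h1 : (⋃ s ∈ S, (s.vars : Set ℕ)).Finite := hS.biUnion fun s _ => s.vars.finite_toSet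
    obtain ⟨N, hN⟩ := h1.bddAbove
    exact ⟨N + 1, fun s hs i hi => Nat.lt_succ_of_le (hN (Set.mem_biUnion hs hi))⟩
  refine ⟨⟨fun T _ φ z => MvPolynomial.eval₂Hom (φ.comp MvPolynomial.C)
    (fun j => if h : N ≤ j ∧ j < N + n then z ⟨j - N, by omega⟩ else φ (MvPolynomial.X j)),
    ?_, ?_, fun i => MvPolynomial.X (N + i), ?_⟩⟩
  · intro T T' _ _ f φ z
    apply MvPolynomial.ringHom_ext
    · intro r; simp
    · intro j
      simp only [RingHom.comp_apply, MvPolynomial.eval₂Hom_X', Function.comp_apply]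
      split_ifs <;> rfl
  · intro T _ φ z s hs
    apply MvPolynomial.hom_congr_vars
    · ext r; simp
    · intro i hi _
      have := hN s hs i hi
      rw [MvPolynomial.eval₂Hom_X', dif_neg (by omega)]
    · rfl
  · intro T _ φ z i
    rw [MvPolynomial.eval₂Hom_X', dif_pos ⟨by omega, by omega⟩]
    congr 1
    ext
    simp

variable {A : Type} [CommRing A] {E S : Set A} {a b : A}

lemma LiftData.beta_eq {n : ℕ} (D : LiftData n S) (ha : a ∈ S) (hb : b ∈ S) {K κ : Type} [Field K]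
    [Field κ] (ξ : A →+* K) (ξ0 : A →+* κ) (z : Fin n → K) (z0 : Fin n → κ) :
    beta a b (D.L K ξ z) (D.L κ ξ0 z0) = beta a b ξ ξ0 := by
  unfold beta
  rw [D.fix K ξ z a ha, D.fix κ ξ0 z0 a ha, D.fix κ ξ0 z0 b hb]

lemma stepH (D : LiftData 5 S) (hE : E ⊆ S) (ha : a ∈ S) (hb : b ∈ S) {x y : A} (hx : x ∈ S)
    (hy : y ∈ S) (w : A)
    (hw : ∀ (K : Type) [Field K] (ξ : A →+* K), Pt E ξ →
      ξ w ≠ 0 ∧ ∀ n : ℤ, ξ w ^ n = 1 → n = 0)
    (h : Triv (E ∪ {x - D.v 2 * D.v 0, y - D.v 2 * D.v 1, D.v 3 * D.v 0 + D.v 4 * D.v 1 - 1}) a b) :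
    Triv E a b := by
  obtain ⟨σ, hσ⟩ := h
  let F : Fam E a b (Fin 5) :=
    { Sol := fun T _ φ z => φ x = z 2 * z 0 ∧ φ y = z 2 * z 1 ∧ z 3 * z 0 + z 4 * z 1 = 1
      map := by
        rintro T T' _ _ f φ z ⟨h1, h2, h3⟩
        refine ⟨by simp [h1], by simp [h2], ?_⟩
        simp only [Function.comp_apply]
        rw [← map_mul, ← map_mul, ← map_add, h3, map_one]
      wt := ![-1, -1, 1, 1, 1]
      scale := by
        rintro T _ φ z t ⟨h1, h2, h3⟩
        have ht : (t : T) * (t⁻¹ : Tˣ) = 1 := t.mul_inv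
        refine ⟨?_, ?_, ?_⟩ <;> simp
        · linear_combination h1 - z 2 * z 0 * ht
        · linear_combination h2 - z 2 * z 1 * ht
        · linear_combination h3 + (z 3 * z 0 + z 4 * z 1) * ht
      τ := fun K _ ξ z => σ K (D.L K ξ z)
      good := by
        rintro V K κ _ _ _ g r hs φ z hφ ⟨h1, h2, h3⟩
        have h := hσ V K κ g r hs (D.L V φ z) (by
          rintro f (hf | rfl | rfl | rfl)
          · rw [D.fix V φ z f (hE hf), hφ f hf]
          · simp only [map_sub, map_mul, D.var, D.fix V φ z x hx, h1, sub_self]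
          · simp only [map_sub, map_mul, D.var, D.fix V φ z y hy, h2, sub_self]
          · simp only [map_sub, map_add, map_mul, D.var, map_one, h3, sub_self])
        rw [D.nat, D.nat, D.beta_eq ha hb] at h
        exact h }
  have hex : ∀ (V K κ : Type) [CommRing V] [Field K] [Field κ] (g : V →+* K) (r : V →+* κ),
      IsSpan g r → ∀ φ : A →+* V, Pt E φ → ∃ z, F.Sol V φ z := by
    intro V K κ _ _ _ g r hs φ _
    rcases hs.tot (φ x) (φ y) with ⟨c, hc⟩ | ⟨c, hc⟩
    · exact ⟨![1, c, φ x, 1, 0], by simp, by simpa using hc, by simp⟩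
    · exact ⟨![c, 1, φ y, 0, 1], by simpa using hc, by simp, by simp⟩
  have hd : ∀ (K : Type) [Field K] (ξ : A →+* K), ¬ (ξ x = 0 ∧ ξ y = 0) → ∀ z, F.Sol K ξ z →
      z 2 ≠ 0 := by
    rintro K _ ξ hn z ⟨h1, h2, -⟩ h0
    exact hn ⟨by rw [h1, h0, zero_mul], by rw [h2, h0, zero_mul]⟩
  obtain ⟨c, j, hj0, hc⟩ := F.norm w hw (fun K _ _ z => z 2) (fun K _ ξ => ξ x = 0 ∧ ξ y = 0)
    (by intro K _ ξ z t; simp [F])
    (by
      rintro K _ ξ hξ ⟨hx0, hy0⟩
      have key : ∀ z, F.Sol K ξ z → F.τ K ξ z = F.τ K ξ ![0, 1, 0, 0, 1] := by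
        rintro z ⟨h1, h2, h3⟩
        have h0 : z 2 = 0 := by
          rw [hx0] at h1; rw [hy0] at h2
          linear_combination -z 3 * h1 - z 4 * h2 - z 2 * h3
        have hz : z = ![z 0, z 1, 0, z 3, z 4] := by
          funext i; fin_cases i <;> simp [h0]
        rw [hz]
        refine unimod_conn (fun x' y' u v => F.τ K ξ ![x', y', 0, u, v]) ?_ ?_ _ _ _ _ h3
        · intro x' y' u v u' v' e1 e2
          apply F.line ξ hξ
          have e1' := congrArg (C : K → K[X]) e1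
          have e2' := congrArg (C : K → K[X]) e2
          simp only [map_add, map_mul, map_one] at e1' e2'
          refine ⟨by simp [hx0], by simp [hy0], ?_⟩
          simp
          linear_combination e1' + X * (e2' - e1')
        · intro x' y' x'' y'' u v e1 e2
          apply F.line ξ hξ
          have e1' := congrArg (C : K → K[X]) e1
          have e2' := congrArg (C : K → K[X]) e2
          simp only [map_add, map_mul, map_one] at e1' e2'
          refine ⟨by simp [hx0], by simp [hy0], ?_⟩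
          simp
          linear_combination e1' + X * (e2' - e1')
      intro z z' hz hz'
      rw [key z hz, key z' hz'])
    (fun K _ ξ _ hn z hz => hd K ξ hn z hz)
    (by
      intro K _ ξ hξ hn z z' hz hz' h2
      have h0 := hd K ξ hn z hz
      obtain ⟨h3, h4, h5⟩ := hz
      obtain ⟨h3', h4', h5'⟩ := hz'
      have h2' : z' 2 = z 2 := h2.symm
      have e0 : z' 0 = z 0 := mul_left_cancel₀ h0 (by rw [← h3, h3', h2'])
      have e1 : z' 1 = z 1 := mul_left_cancel₀ h0 (by rw [← h4, h4', h2'])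
      apply F.line ξ hξ
      rw [e0, e1] at h5'
      have e1' := congrArg (C : K → K[X]) h5
      have e2' := congrArg (C : K → K[X]) h5'
      simp only [map_add, map_mul, map_one] at e1' e2'
      refine ⟨by simp [h2', e0, h3], by simp [h2', e1, h4], ?_⟩
      simp only [e0, e1]
      linear_combination e1' + X * (e2' - e1'))
    hex
  refine ⟨c, fun V K κ _ _ _ g r hs φ hφ => ?_⟩
  obtain ⟨z, hz⟩ := hex V K κ g r hs φ hφ
  have h1 := (hc V K κ g r hs φ hφ).2 z hz
  by_cases hj : j κ (r.comp φ) = 0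
  · simpa [hj] using h1
  · have h2 : r (z 2) ≠ 0 := hd κ (r.comp φ) (fun h => hj (hj0 κ _ (hφ.comp r) h)) _
      (F.map _ _ r _ _ hz)
    have h3 := Good.of_isUnit (g := g) (r := r) (hs.loc _ h2)
    have h4 := h1.mul (h3.zpow (- j κ (r.comp φ)))
    simp only [Function.comp_apply] at h4
    rw [mul_assoc, ← zpow_add₀ h3.ne_zero.1, mul_assoc, mul_assoc, ← zpow_add₀ h2] at h4
    simpa using h4

open Classical in
lemma stepF (D : LiftData 4 S) (hE : E ⊆ S) (ha : a ∈ S) (hb : b ∈ S) {a1 b1 c1 : A}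
    (ha1 : a1 ∈ S) (hb1 : b1 ∈ S) (hc1 : c1 ∈ S) (w : A)
    (hw : ∀ (K : Type) [Field K] (ξ : A →+* K), Pt E ξ →
      ξ w ≠ 0 ∧ ∀ n : ℤ, ξ w ^ n = 1 → n = 0)
    (huni : ∀ (K : Type) [Field K] (ξ : A →+* K), Pt E ξ → ξ a1 = 0 → ξ b1 = 0 → ξ c1 ≠ 0)
    (h : Triv (E ∪ {D.v 2 * (D.v 0 * a1) + D.v 3 * (D.v 0 * b1 + D.v 1 * c1) - 1}) a b) :
    ∃ (σ : Sec A) (j : Ex A), Compat E a b a1 b1 σ 1 j := by
  obtain ⟨σ, hσ⟩ := h
  let F : Fam E a b (Fin 4) :=
    { Sol := fun T _ φ z => z 2 * (z 0 * φ a1) + z 3 * (z 0 * φ b1 + z 1 * φ c1) = 1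
      map := by
        intro T T' _ _ f φ z h1
        have := congrArg f h1
        simpa using this
      wt := ![1, 1, -1, -1]
      scale := by
        intro T _ φ z t h1
        have ht : (t : T) * (t⁻¹ : Tˣ) = 1 := t.mul_inv
        simp
        linear_combination h1 + (z 2 * (z 0 * φ a1) + z 3 * (z 0 * φ b1 + z 1 * φ c1)) * ht
      τ := fun K _ ξ z => σ K (D.L K ξ z)
      good := by
        intro V K κ _ _ _ g r hs φ z hφ h1
        have h := hσ V K κ g r hs (D.L V φ z) (by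
          rintro f (hf | rfl)
          · rw [D.fix V φ z f (hE hf), hφ f hf]
          · simp only [map_sub, map_add, map_mul, D.var, map_one, D.fix V φ z a1 ha1,
              D.fix V φ z b1 hb1, D.fix V φ z c1 hc1, h1, sub_self])
        rw [D.nat, D.nat, D.beta_eq ha hb] at h
        exact h }
  have hex : ∀ (V K κ : Type) [CommRing V] [Field K] [Field κ] (g : V →+* K) (r : V →+* κ),
      IsSpan g r → ∀ φ : A →+* V, Pt E φ → ∃ z, F.Sol V φ z := by
    intro V K κ _ _ _ g r hs φ hφ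
    by_cases h1 : r (φ a1) = 0
    · by_cases h2 : r (φ b1) = 0
      · obtain ⟨u, hu⟩ := (hs.loc _ (huni κ (r.comp φ) (hφ.comp r) h1 h2)).exists_left_inv
        exact ⟨![0, 1, 0, u], by simpa [F] using hu⟩
      · obtain ⟨u, hu⟩ := (hs.loc _ h2).exists_left_inv
        exact ⟨![1, 0, 0, u], by simpa [F] using hu⟩
    · obtain ⟨u, hu⟩ := (hs.loc _ h1).exists_left_inv
      exact ⟨![1, 0, u, 0], by simpa [F] using hu⟩
  obtain ⟨c, j, hj0, hc⟩ := F.norm w hw
    (fun K _ ξ z => if ξ a1 = 0 then z 0 * ξ b1 + z 1 * ξ c1 else z 0)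
    (fun K _ ξ => ξ a1 ≠ 0 ∧ ξ c1 ≠ 0)
    (by
      intro K _ ξ z t
      split_ifs <;> simp [F]
      ring)
    (by
      rintro K _ ξ hξ ⟨ha0, hc0⟩
      have key : ∀ z, F.Sol K ξ z → F.τ K ξ z =
          F.τ K ξ ![0, 1, (0 - 1 / ξ c1 * ξ b1) / ξ a1, 1 / ξ c1] := by
        intro z h1
        have hz : z = ![z 0, z 1, ((z 2 * ξ a1 + z 3 * ξ b1) - (z 3 * ξ c1) / ξ c1 * ξ b1) / ξ a1,
            (z 3 * ξ c1) / ξ c1] := by
          funext i; fin_cases i <;> simp [ha0, hc0]
        rw [hz]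
        have hsol : ∀ x y u v : K, u * x + v * y = 1 →
            (u - v / ξ c1 * ξ b1) / ξ a1 * (x * ξ a1) + v / ξ c1 * (x * ξ b1 + y * ξ c1) = 1 := by
          intro x y u v e
          rw [← e]; field_simp; ring
        refine unimod_conn (fun x y u v => F.τ K ξ ![x, y, (u - v / ξ c1 * ξ b1) / ξ a1, v / ξ c1])
          ?_ ?_ _ _ _ _ (by linear_combination h1)
        · intro x' y' u v u' v' e1 e2
          apply F.line ξ hξ
          have e1' := congrArg (C : K → K[X]) (hsol _ _ _ _ e1)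
          have e2' := congrArg (C : K → K[X]) (hsol _ _ _ _ e2)
          simp only [map_add, map_mul, map_one] at e1' e2'
          simp only [F]
          simp
          linear_combination e1' + X * (e2' - e1')
        · intro x' y' x'' y'' u v e1 e2
          apply F.line ξ hξ
          have e1' := congrArg (C : K → K[X]) (hsol _ _ _ _ e1)
          have e2' := congrArg (C : K → K[X]) (hsol _ _ _ _ e2)
          simp only [map_add, map_mul, map_one] at e1' e2'
          simp only [F]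
          simp
          linear_combination e1' + X * (e2' - e1')
      intro z z' hz hz'
      rw [key z hz, key z' hz'])
    (by
      intro K _ ξ hξ hn z h1 h0
      simp only [F] at h1
      split_ifs at h0 with h2
      · rw [h0, h2] at h1; simp at h1
      · have h3 : ξ c1 = 0 := by
          by_contra h3; exact hn ⟨h2, h3⟩
        rw [h0, h3] at h1; simp at h1)
    (by
      intro K _ ξ hξ hn z z' h1 h1' h2
      apply F.line ξ hξ
      simp only [F] at h1 h1' ⊢
      split_ifs at h2 with h3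
      · rw [h3] at h1 h1'
        have e3 : z' 3 = z 3 := by
          linear_combination -z' 3 * h1 + z 3 * h1' + z 3 * z' 3 * h2
        rw [e3] at h1'
        have e1' := congrArg (C : K → K[X]) h1
        have e2' := congrArg (C : K → K[X]) h1'
        simp only [map_add, map_mul, map_one, map_zero] at e1' e2'
        simp only [RingHom.comp_apply, h3, e3, map_zero]
        linear_combination e1' + X * (e2' - e1')
      · have h4 : ξ c1 = 0 := by
          by_contra h4; exact hn ⟨h3, h4⟩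
        rw [h4] at h1 h1'
        rw [← h2] at h1'
        have e1' := congrArg (C : K → K[X]) h1
        have e2' := congrArg (C : K → K[X]) h1'
        simp only [map_add, map_mul, map_one, map_zero] at e1' e2'
        simp only [RingHom.comp_apply, h4, ← h2, map_zero]
        linear_combination e1' + X * (e2' - e1'))
    hex
  refine ⟨c, j, fun V K κ _ _ _ g r hs φ hφ => ?_⟩
  obtain ⟨z, hz⟩ := hex V K κ g r hs φ hφ
  obtain ⟨hj, h1⟩ := hc V K κ g r hs φ hφ
  refine ⟨hj, ?_⟩
  have h1 := h1 z hz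
  by_cases hj1 : j κ (r.comp φ) = 0
  · simpa [hj1] using h1
  simp only [F] at hz
  simp only [RingHom.comp_apply, Function.comp_apply] at h1
  by_cases hga : g (φ a1) = 0
  · have h2 : φ a1 = 0 := hs.eq_zero hga
    have h3 : IsUnit (z 0 * φ b1 + z 1 * φ c1) :=
      IsUnit.of_mul_eq_one_right (z 3) (by rw [← hz, h2]; ring)
    have h4 := Good.of_isUnit (g := g) (r := r) h3
    have h5 := h1.mul (h4.zpow (- j κ (r.comp φ)))
    have hb1 : beta a1 b1 (g.comp φ) (r.comp φ) = 1 := by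
      unfold beta
      rw [if_neg]
      exact fun h => h.1 hga
    have hra : r (φ a1) = 0 := by rw [h2, map_zero]
    have h6 := h4.ne_zero
    simp only [map_add, map_mul] at h5 h6
    rw [if_pos hga, if_pos hra, mul_assoc, ← zpow_add₀ h6.1, mul_assoc, mul_assoc,
      ← zpow_add₀ h6.2] at h5
    simpa [hb1] using h5
  · have hgc : g (φ c1) = 0 := by
      by_contra hgc
      exact hj1 (hj ▸ hj0 K _ (hφ.comp g) ⟨hga, hgc⟩)
    have h2 : φ c1 = 0 := hs.eq_zero hgc
    have h3 : IsUnit (z 0) :=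
      IsUnit.of_mul_eq_one (z 2 * φ a1 + z 3 * φ b1) (by rw [← hz, h2]; ring)
    have h4 := Good.of_isUnit (g := g) (r := r) h3
    have h5 := h1.mul (h4.zpow (- j κ (r.comp φ)))
    have h6 := h4.ne_zero
    rw [if_neg hga, mul_assoc, ← zpow_add₀ h6.1] at h5
    by_cases hra : r (φ a1) = 0
    · have hrb : r (φ b1) ≠ 0 := fun hrb =>
        huni κ (r.comp φ) (hφ.comp r) hra hrb (by simp [h2])
      have hb1 : beta a1 b1 (g.comp φ) (r.comp φ) = r (φ b1) := by
        unfold beta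
        rw [if_pos ⟨hga, hra, hrb⟩]; rfl
      rw [if_pos hra, h2, map_zero, mul_zero, add_zero, mul_zpow] at h5
      have e : beta a b (g.comp φ) (r.comp φ) *
          (c κ (r.comp φ) * (r (z 0) ^ j κ (r.comp φ) * r (φ b1) ^ j κ (r.comp φ))) *
          r (z 0) ^ (- j κ (r.comp φ)) = beta a b (g.comp φ) (r.comp φ) ^ (1 : ℤ) *
          r (φ b1) ^ j κ (r.comp φ) * c κ (r.comp φ) := by
        rw [zpow_neg, zpow_one]
        have := zpow_ne_zero (j κ (r.comp φ)) h6.2
        field_simp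
      rw [e] at h5
      simpa [hb1] using h5
    · have hb1 : beta a1 b1 (g.comp φ) (r.comp φ) = 1 := by
        unfold beta
        rw [if_neg]
        exact fun h => hra h.2.1
      rw [if_neg hra, mul_assoc, mul_assoc, ← zpow_add₀ h6.2] at h5
      simpa [hb1] using h5

lemma int_comb {p : ℕ} (hp : p.Prime) (J : ℕ → ℤ) : ∃ (m : ℕ) (x y z : ℤ),
    x * p + y + z = 1 ∧ y * (p ^ 1 * J 1) + z * (p ^ m * J m) = 0 := by
  by_cases h : J 1 = 0
  · exact ⟨0, 0, 1, 0, by simp, by simp [h]⟩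
  obtain ⟨m, n', hn, hcop⟩ : ∃ (m : ℕ) (n' : ℤ), J 1 = p ^ m * n' ∧ IsCoprime (p : ℤ) n' := by
    have hp' : Prime (p : ℤ) := Nat.prime_iff_prime_int.1 hp
    obtain ⟨m, n', hn', hJ⟩ := WfDvdMonoid.max_power_factor h hp'.irreducible
    exact ⟨m, n', hJ, (hp'.irreducible.coprime_iff_not_dvd).2 hn'⟩
  obtain ⟨u, v, huv⟩ := hcop
  refine ⟨m + 2, u + v * J (m + 2), - v * J (m + 2) * p, v * n', by linear_combination huv, ?_⟩
  rw [hn]; ring

lemma combine {p : ℕ} (hp : p.Prime) {a1 b1 : A} (σp : Sec A)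
    (hσp : Compat E a b a1 b1 σp p (fun _ _ _ => 0))
    (h : ∀ e : ℕ, ∃ (σ : Sec A) (j : Ex A), Compat E a b (a1 ^ p ^ e) (b1 ^ p ^ e) σ 1 j) :
    Triv E a b := by
  choose σ j hσ using h
  choose m x y z hxyz using int_comb hp
  refine ⟨fun K _ ξ => σp K ξ ^ x (fun e => j e K ξ) * σ 1 K ξ ^ y (fun e => j e K ξ) *
    σ (m (fun e => j e K ξ)) K ξ ^ z (fun e => j e K ξ), ?_⟩
  intro V K κ _ _ _ g r hs φ hφ
  have hJ : (fun e => j e K (g.comp φ)) = fun e => j e κ (r.comp φ) :=
    funext fun e => (hσ e V K κ g r hs φ hφ).1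
  simp only [hJ]
  set J : ℕ → ℤ := fun e => j e κ (r.comp φ) with hJdef
  obtain ⟨e1, e2⟩ := hxyz J
  have h0 := (hσp V K κ g r hs φ hφ).2
  have h1 := (hσ 1 V K κ g r hs φ hφ).2
  have h2 := (hσ (m J) V K κ g r hs φ hφ).2
  rw [beta_pow _ _ (pow_ne_zero _ hp.ne_zero)] at h1 h2
  have h3 := ((h0.zpow (x J)).mul (h1.zpow (y J))).mul (h2.zpow (z J))
  convert h3 using 1
  have hβ := beta_ne_zero a b (g.comp φ) (r.comp φ)
  have hβ1 := beta_ne_zero a1 b1 (g.comp φ) (r.comp φ)
  set β := beta a b (g.comp φ) (r.comp φ)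
  set β1 := beta a1 b1 (g.comp φ) (r.comp φ)
  have f1 : β = β ^ (p * x J) * β ^ (y J) * β ^ (z J) := by
    rw [← zpow_add₀ hβ, ← zpow_add₀ hβ, mul_comm, e1, zpow_one]
  have f2 : (1 : κ) = β1 ^ (((p ^ 1 : ℕ) : ℤ) * J 1 * y J) *
      β1 ^ (((p ^ m J : ℕ) : ℤ) * J (m J) * z J) := by
    rw [← zpow_add₀ hβ1]
    have : ((p ^ 1 : ℕ) : ℤ) * J 1 * y J + ((p ^ m J : ℕ) : ℤ) * J (m J) * z J = 0 := by
      push_cast
      linear_combination e2
    rw [this, zpow_zero]
  simp only [mul_zpow, zpow_one, zpow_zero, mul_one, ← zpow_natCast, ← zpow_mul]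
  conv_lhs => rw [f1]
  rw [← mul_one (β ^ (p * x J) * β ^ (y J) * β ^ (z J)), f2]
  simp only [hJdef]
  ring

end Pool.Agent.P.MP_d1604f_al
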