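import Pool.Agent.P.MP_d1604f_al.Steps
import Pool.Agent.P.MP_d1604f_al.EDR

/-! The tower of equations and the limit ring. -/

namespace Pool.Agent.P.MP_d1604f_al

open Polynomial

variable (p : ℕ) [Fact p.Prime]

/-- The base field of rational functions over the prime field. -/
abbrev Kp : Type := RatFunc (ZMod p)

/-- The ambient polynomial ring in countably many variables. -/
abbrev Ap : Type := MvPolynomial ℕ (Kp p)

/-- First entry of the bad matrix. -/
noncomputable def a0 : Ap p := MvPolynomial.X 0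
/-- Second entry of the bad matrix. -/
noncomputable def b0 : Ap p := MvPolynomial.X 1
/-- Third entry of the bad matrix. -/
noncomputable def c0 : Ap p := MvPolynomial.X 2
/-- The transcendental constant. -/
noncomputable def w0 : Ap p := MvPolynomial.C RatFunc.X

/-- The initial equations: two lines glued at an inseparable point. -/
def E0 : Set (Ap p) := {a0 p * c0 p, a0 p + c0 p - (b0 p ^ p - w0 p)}

lemma countable_Ap : Countable (Ap p) := by
  have h1 : Countable (AddMonoidAlgebra (ZMod p) ℕ) := AddMonoidAlgebra.coeff_injective.countable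
  have h2 : Countable (Polynomial (ZMod p)) := Polynomial.toFinsupp_injective.countable
  have h3 : Countable (Kp p) := by
    have : Function.Surjective (fun x : Polynomial (ZMod p) × Polynomial (ZMod p) =>
        algebraMap _ (Kp p) x.1 / algebraMap _ (Kp p) x.2) :=
      fun x => ⟨(x.num, x.denom), RatFunc.num_div_denom x⟩
    exact this.countable
  exact AddMonoidAlgebra.coeff_injective.countable

lemma intDegree_pow {K : Type} [Field K] (y : RatFunc K) (hy : y ≠ 0) (n : ℕ) :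
    (y ^ n).intDegree = n * y.intDegree := by
  induction n with
  | zero => simp
  | succ n ih => rw [pow_succ, RatFunc.intDegree_mul (pow_ne_zero _ hy) hy, ih]; push_cast; ring

lemma hw0 (K : Type) [Field K] (ξ : Ap p →+* K) :
    ξ (w0 p) ≠ 0 ∧ ∀ n : ℤ, ξ (w0 p) ^ n = 1 → n = 0 := by
  have h1 : ξ (w0 p) = (ξ.comp MvPolynomial.C) (RatFunc.X : Kp p) := rfl
  refine ⟨by rw [h1]; exact (_root_.map_ne_zero _).2 RatFunc.X_ne_zero, ?_⟩
  have key : ∀ n : ℕ, ξ (w0 p) ^ n = 1 → n = 0 := by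
    intro n hn
    rw [h1, ← map_pow, ← map_one (ξ.comp MvPolynomial.C)] at hn
    have h2 := congrArg RatFunc.intDegree ((ξ.comp MvPolynomial.C).injective hn)
    rw [intDegree_pow _ RatFunc.X_ne_zero] at h2
    simpa using h2
  intro n hn
  obtain ⟨m, rfl | rfl⟩ := Int.eq_nat_or_neg n
  · rw [zpow_natCast] at hn
    simp [key m hn]
  · rw [zpow_neg, inv_eq_one, zpow_natCast] at hn
    simp [key m hn]

lemma X_not_pow (y : Kp p) : y ^ p ≠ RatFunc.X := by
  intro h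
  have hp := (Fact.out : p.Prime)
  have hy : y ≠ 0 := by
    rintro rfl
    rw [zero_pow hp.ne_zero] at h
    exact RatFunc.X_ne_zero h.symm
  have h2 := congrArg RatFunc.intDegree h
  rw [intDegree_pow _ hy, RatFunc.intDegree_X] at h2
  have h3 : (p : ℤ) ∣ 1 := ⟨_, h2.symm⟩
  have h4 : p ∣ 1 := by exact_mod_cast h3
  exact hp.one_lt.ne' (Nat.dvd_one.1 h4)

lemma triv_poly {A : Type} [CommRing A] {E : Set A} {a b : A} (σ : Sec A)
    (hσ : ∀ (V K κ : Type) [CommRing V] [Field K] [Field κ] (g : V →+* K) (r : V →+* κ),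
      IsSpan g r → ∀ φ : A →+* V, Pt E φ →
      Good g r (σ K (g.comp φ)) (beta a b (g.comp φ) (r.comp φ) * σ κ (r.comp φ)))
    {k : Type} [Field k] (ψ : A →+* k[X]) (hψ : Pt E ψ) :
    ∃ c : k, c ≠ 0 ∧ ∀ (κ : Type) [Field κ] (r : k[X] →+* κ), r (C c) =
      beta a b ((algebraMap k[X] (FractionRing k[X])).comp ψ) (r.comp ψ) * σ κ (r.comp ψ) := by
  obtain ⟨u, hu⟩ := unit_of_spans (σ _ ((algebraMap k[X] (FractionRing k[X])).comp ψ))
    (fun κ _ r => beta a b ((algebraMap k[X] (FractionRing k[X])).comp ψ) (r.comp ψ) *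
      σ κ (r.comp ψ)) (by
      intro V κ _ _ i g r hs hg
      have h := hσ V _ κ g r hs (i.comp ψ) (hψ.comp i)
      rw [← hg]
      exact h)
  obtain ⟨c, hc0, hc⟩ := Polynomial.isUnit_iff.1 u.isUnit
  exact ⟨c, hc0.ne_zero, fun κ _ r => by rw [hc, hu κ r]⟩

lemma not_triv_E0 : ¬ Triv (E0 p) (a0 p) (b0 p) := by
  rintro ⟨σ, hσ⟩
  have hp := (Fact.out : p.Prime)
  let f : (Kp p)[X] := X ^ p - C RatFunc.X
  have hf : f ≠ 0 := Polynomial.X_pow_sub_C_ne_zero hp.pos _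
  let ψ1 : Ap p →+* (Kp p)[X] := MvPolynomial.eval₂Hom C
    (fun i => if i = 0 then f else if i = 1 then X else 0)
  let ψ2 : Ap p →+* (Kp p)[X] := MvPolynomial.eval₂Hom C
    (fun i => if i = 2 then f else if i = 1 then X else 0)
  have h1 : Pt (E0 p) ψ1 := by
    rintro _ (rfl | rfl) <;> simp [ψ1, a0, b0, c0, w0, f]
  have h2 : Pt (E0 p) ψ2 := by
    rintro _ (rfl | rfl) <;> simp [ψ2, a0, b0, c0, w0, f]
  obtain ⟨c1, hc1, h3⟩ := triv_poly σ hσ ψ1 h1
  obtain ⟨c2, hc2, h4⟩ := triv_poly σ hσ ψ2 h2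
  let κ := AlgebraicClosure (Kp p)
  obtain ⟨ρ, hρ⟩ := IsAlgClosed.exists_pow_nat_eq (algebraMap (Kp p) κ RatFunc.X) hp.pos
  have hρ0 : ρ ≠ 0 := by
    rintro rfl
    rw [zero_pow hp.ne_zero] at hρ
    exact (map_ne_zero (algebraMap (Kp p) κ)).2 RatFunc.X_ne_zero hρ.symm
  let r : (Kp p)[X] →+* κ := Polynomial.eval₂RingHom (algebraMap (Kp p) κ) ρ
  have hrf : r f = 0 := by simp [r, f, hρ]
  have hrX : r X = ρ := by simp [r]
  have he : r.comp ψ1 = r.comp ψ2 := by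
    apply MvPolynomial.ringHom_ext
    · intro x; simp [ψ1, ψ2]
    · intro i
      simp only [RingHom.comp_apply, ψ1, ψ2, MvPolynomial.eval₂Hom_X']
      split_ifs <;> simp_all
  have h5 := h3 κ r
  have h6 := h4 κ r
  have hb1 : beta (a0 p) (b0 p) ((algebraMap _ (FractionRing (Kp p)[X])).comp ψ1) (r.comp ψ1)
      = ρ := by
    unfold beta
    rw [if_pos]
    · simp [ψ1, b0, hrX]
    · refine ⟨by simpa [ψ1, a0] using hf, by simp [ψ1, a0, hrf], by simp [ψ1, b0, hrX, hρ0]⟩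
  have hb2 : beta (a0 p) (b0 p) ((algebraMap _ (FractionRing (Kp p)[X])).comp ψ2) (r.comp ψ2)
      = 1 := by
    unfold beta
    rw [if_neg]
    rintro ⟨h, -⟩
    exact h (by simp [ψ2, a0])
  rw [hb1, he] at h5
  rw [hb2, one_mul] at h6
  rw [← h6] at h5
  simp only [r, coe_eval₂RingHom, eval₂_C] at h5
  apply X_not_pow p (c1 / c2)
  apply (algebraMap (Kp p) κ).injective
  rw [map_pow, map_div₀, h5, ← hρ, mul_div_assoc,
    div_self ((map_ne_zero (algebraMap (Kp p) κ)).2 hc2), mul_one]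

variable {p}

lemma pt_E0 {E : Set (Ap p)} (hE : E0 p ⊆ E) {T : Type} [CommRing T] {φ : Ap p →+* T}
    (hφ : Pt E φ) :
    φ (a0 p) * φ (c0 p) = 0 ∧ φ (a0 p) + φ (c0 p) = φ (b0 p) ^ p - φ (w0 p) := by
  have h1 := hφ _ (hE (Or.inl rfl))
  have h2 := hφ _ (hE (Or.inr rfl))
  simp only [map_mul, map_sub, map_add, map_pow] at h1 h2
  exact ⟨h1, by linear_combination h2⟩

open Classical in
lemma compat_p {E : Set (Ap p)} (hE : E0 p ⊆ E) (a1 b1 : Ap p) :
    Compat E (a0 p) (b0 p) a1 b1 (fun _ _ ξ => if ξ (a0 p) = 0 then 1 else ξ (w0 p)) p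
      (fun _ _ _ => 0) := by
  intro V K κ _ _ _ g r hs φ hφ
  refine ⟨rfl, ?_⟩
  have hp := (Fact.out : p.Prime)
  obtain ⟨h1, h2⟩ := pt_E0 hE hφ
  have hw := (hw0 p κ (r.comp φ)).1
  have hgw := Good.of_isUnit (g := g) (r := r) (hs.loc _ hw)
  simp only [RingHom.comp_apply, zpow_zero, mul_one]
  by_cases hga : g (φ (a0 p)) = 0
  · have h3 : φ (a0 p) = 0 := hs.eq_zero hga
    have hb : beta (a0 p) (b0 p) (g.comp φ) (r.comp φ) = 1 := by
      unfold beta
      rw [if_neg]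
      exact fun h => h.1 hga
    simpa [hb, h3] using Good.one
  · have h3 : φ (c0 p) = 0 := by
      apply hs.eq_zero
      have := congrArg g h1
      rw [map_mul, map_zero] at this
      exact (mul_eq_zero.1 this).resolve_left hga
    rw [if_neg hga]
    by_cases hra : r (φ (a0 p)) = 0
    · have h4 : r (φ (b0 p)) ^ p = r (φ (w0 p)) := by
        have := congrArg r h2
        rw [h3, add_zero, hra, map_sub, map_pow] at this
        linear_combination -this
      have h5 : r (φ (b0 p)) ≠ 0 := by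
        intro h5
        rw [h5, zero_pow hp.ne_zero] at h4
        exact hw h4.symm
      have hb : beta (a0 p) (b0 p) (g.comp φ) (r.comp φ) = r (φ (b0 p)) := by
        unfold beta
        rw [if_pos ⟨hga, hra, h5⟩]; rfl
      rw [if_pos hra, hb, zpow_natCast, h4, mul_one]
      exact hgw
    · have hb : beta (a0 p) (b0 p) (g.comp φ) (r.comp φ) = 1 := by
        unfold beta
        rw [if_neg]
        exact fun h => hra h.2.1
      rw [if_neg hra, hb, one_zpow, one_mul]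
      exact hgw

lemma IsSpan.radical {A V K κ : Type} [CommRing A] [CommRing V] [Field K] [Field κ] {g : V →+* K}
    {r : V →+* κ} (hs : IsSpan g r) {E : Set A} {φ : A →+* V} (hφ : Pt E φ) {f : A}
    (hf : f ∈ (Ideal.span E).radical) : φ f = 0 := by
  obtain ⟨n, hn⟩ := hf
  have h1 : Ideal.span E ≤ RingHom.ker φ := Ideal.span_le.2 fun x hx => hφ x hx
  have h2 : φ f ^ n = 0 := by rw [← map_pow]; exact h1 hn
  apply hs.eq_zero
  have := congrArg g h2
  rw [map_pow, map_zero] at this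
  exact eq_zero_of_pow_eq_zero this

open Classical in
lemma triv_of_kap {E : Set (Ap p)} (hE : E0 p ⊆ E) (P Q s t : Ap p)
    (h : s * (P * a0 p) + t * (P * b0 p + Q * c0 p) - 1 ∈ (Ideal.span E).radical) :
    Triv E (a0 p) (b0 p) := by
  refine ⟨fun K _ ξ => (if ξ (a0 p) = 0 then ξ P * ξ (b0 p) + ξ Q * ξ (c0 p) else ξ P)⁻¹, ?_⟩
  intro V K κ _ _ _ g r hs φ hφ
  obtain ⟨h1, -⟩ := pt_E0 hE hφ
  have h2 := hs.radical hφ h
  simp only [map_sub, map_add, map_mul, map_one] at h2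
  simp only [RingHom.comp_apply]
  by_cases hga : g (φ (a0 p)) = 0
  · have h3 : φ (a0 p) = 0 := hs.eq_zero hga
    have hb : beta (a0 p) (b0 p) (g.comp φ) (r.comp φ) = 1 := by
      unfold beta
      rw [if_neg]
      exact fun h => h.1 hga
    have h4 : IsUnit (φ P * φ (b0 p) + φ Q * φ (c0 p)) :=
      IsUnit.of_mul_eq_one_right (φ t) (by rw [h3] at h2; linear_combination h2)
    have h5 := (Good.of_isUnit (g := g) (r := r) h4).zpow (-1)
    simpa [hb, h3] using h5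
  · have h3 : φ (c0 p) = 0 := by
      apply hs.eq_zero
      have := congrArg g h1
      rw [map_mul, map_zero] at this
      exact (mul_eq_zero.1 this).resolve_left hga
    have h4 : IsUnit (φ P) :=
      IsUnit.of_mul_eq_one (φ s * φ (a0 p) + φ t * φ (b0 p)) (by rw [h3] at h2; linear_combination h2)
    have h5 := (Good.of_isUnit (g := g) (r := r) h4).zpow (-1)
    rw [if_neg hga]
    by_cases hra : r (φ (a0 p)) = 0
    · have h6 : r (φ (b0 p)) ≠ 0 := by
        intro h6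
        have := congrArg r h2
        simp [hra, h6, h3] at this
      have hb : beta (a0 p) (b0 p) (g.comp φ) (r.comp φ) = r (φ (b0 p)) := by
        unfold beta
        rw [if_pos ⟨hga, hra, h6⟩]; rfl
      have e : r (φ (b0 p)) * (r (φ P) * r (φ (b0 p)) + r (φ Q) * r (φ (c0 p)))⁻¹ = (r (φ P))⁻¹ := by
        rw [h3, map_zero, mul_zero, add_zero]
        field_simp
      rw [if_pos hra, hb, e]
      simpa using h5
    · have hb : beta (a0 p) (b0 p) (g.comp φ) (r.comp φ) = 1 := by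
        unfold beta
        rw [if_neg]
        exact fun h => hra h.2.1
      rw [if_neg hra, hb, one_mul]
      simpa using h5

/-- The invariant of the tower. -/
def Inv (E : Set (Ap p)) : Prop := E.Finite ∧ E0 p ⊆ E ∧ ¬ Triv E (a0 p) (b0 p)

lemma Inv.stepH {E : Set (Ap p)} (h : Inv E) (x y : Ap p) : ∃ E', Inv E' ∧ E ⊆ E' ∧
    ∃ x' y' d u v, x - d * x' ∈ E' ∧ y - d * y' ∈ E' ∧ u * x' + v * y' - 1 ∈ E' := by
  obtain ⟨D⟩ := exists_liftData 5 (E ∪ {a0 p, b0 p, x, y}) (h.1.union (Set.toFinite _))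
  refine ⟨E ∪ {x - D.v 2 * D.v 0, y - D.v 2 * D.v 1, D.v 3 * D.v 0 + D.v 4 * D.v 1 - 1},
    ⟨h.1.union (Set.toFinite _), h.2.1.trans Set.subset_union_left, fun ht => h.2.2 ?_⟩,
    Set.subset_union_left, D.v 0, D.v 1, D.v 2, D.v 3, D.v 4, by simp, by simp, by simp⟩
  exact Pool.Agent.P.MP_d1604f_al.stepH D Set.subset_union_left (by simp) (by simp) (by simp)
    (by simp) (w0 p) (fun K _ ξ _ => hw0 p K ξ) ht

lemma Inv.stepF {E : Set (Ap p)} (h : Inv E) (x y z : Ap p) : ∃ E', Inv E' ∧ E ⊆ E' ∧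
    ((∃ α β γ, α * x + β * y + γ * z - 1 ∈ (Ideal.span E).radical) → ∃ (e : ℕ) (P Q s t : Ap p),
      s * (P * x ^ p ^ e) + t * (P * y ^ p ^ e + Q * z ^ p ^ e) - 1 ∈ E') := by
  by_cases hu : ∃ α β γ, α * x + β * y + γ * z - 1 ∈ (Ideal.span E).radical
  swap
  · exact ⟨E, h, subset_rfl, fun h' => absurd h' hu⟩
  obtain ⟨α, β, γ, hu⟩ := hu
  have hp := (Fact.out : p.Prime)
  have hD : ∀ e : ℕ, Nonempty (LiftData 4 (E ∪ {a0 p, b0 p, x ^ p ^ e, y ^ p ^ e, z ^ p ^ e})) :=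
    fun e => exists_liftData 4 _ (h.1.union (Set.toFinite _))
  have D := fun e => (hD e).some
  by_contra hcon
  apply h.2.2
  apply combine hp _ (compat_p h.2.1 x y)
  intro e
  apply Pool.Agent.P.MP_d1604f_al.stepF (D e) Set.subset_union_left (by simp) (by simp)
    (c1 := z ^ p ^ e) (by simp) (by simp) (by simp) (w0 p) (fun K _ ξ _ => hw0 p K ξ)
  · intro K _ ξ hξ h1 h2 h3
    have h4 := (IsSpan.of_field K).radical hξ hu
    rw [map_pow] at h1 h2 h3
    simp [eq_zero_of_pow_eq_zero h1, eq_zero_of_pow_eq_zero h2, eq_zero_of_pow_eq_zero h3] at h4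
  · by_contra ht
    exact hcon ⟨_, ⟨h.1.union (Set.toFinite _), h.2.1.trans Set.subset_union_left, ht⟩,
      Set.subset_union_left, fun _ => ⟨e, (D e).v 0, (D e).v 1, (D e).v 2, (D e).v 3, by simp⟩⟩

lemma Inv.step {E : Set (Ap p)} (h : Inv E) (x y z : Ap p) : ∃ E', Inv E' ∧ E ⊆ E' ∧
    (∃ x' y' d u v, x - d * x' ∈ E' ∧ y - d * y' ∈ E' ∧ u * x' + v * y' - 1 ∈ E') ∧
    ((∃ α β γ, α * x + β * y + γ * z - 1 ∈ (Ideal.span E).radical) → ∃ (e : ℕ) (P Q s t : Ap p),
      s * (P * x ^ p ^ e) + t * (P * y ^ p ^ e + Q * z ^ p ^ e) - 1 ∈ E') := by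
  obtain ⟨E1, h1, hE1, hF⟩ := h.stepF x y z
  obtain ⟨E2, h2, hE2, hH⟩ := h1.stepH x y
  refine ⟨E2, h2, hE1.trans hE2, hH, fun hu => ?_⟩
  obtain ⟨e, P, Q, s, t, h3⟩ := hF hu
  exact ⟨e, P, Q, s, t, hE2 h3⟩

variable (p)

lemma exists_tower : ∃ I : Ideal (Ap p), I.IsRadical ∧ E0 p ⊆ I ∧
    (∀ x y : Ap p, ∃ x' y' d u v, x - d * x' ∈ I ∧ y - d * y' ∈ I ∧ u * x' + v * y' - 1 ∈ I) ∧
    (∀ x y z α β γ : Ap p, α * x + β * y + γ * z - 1 ∈ I → ∃ (e : ℕ) (P Q s t : Ap p),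
      s * (P * x ^ p ^ e) + t * (P * y ^ p ^ e + Q * z ^ p ^ e) - 1 ∈ I) ∧
    ∀ P Q s t : Ap p, s * (P * a0 p) + t * (P * b0 p + Q * c0 p) - 1 ∉ I := by
  have := countable_Ap p
  obtain ⟨en, hen⟩ := exists_surjective_nat (Ap p × Ap p × Ap p)
  choose nx hnx using fun (E : {E : Set (Ap p) // Inv E}) (t : Ap p × Ap p × Ap p) =>
    E.2.step t.1 t.2.1 t.2.2
  let seq : ℕ → {E : Set (Ap p) // Inv E} := fun n => Nat.rec
    ⟨E0 p, (Set.finite_singleton _).insert _, subset_rfl, not_triv_E0 p⟩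
    (fun n E => ⟨nx E (en (Nat.unpair n).1), (hnx E _).1⟩) n
  have hsucc : ∀ n, (seq (n + 1)).1 = nx (seq n) (en (Nat.unpair n).1) := fun n => rfl
  have hmono : Monotone fun n => (seq n).1 :=
    monotone_nat_of_le_succ fun n => by
      show (seq n).1 ⊆ (seq (n + 1)).1
      rw [hsucc]; exact (hnx _ _).2.1
  let J : ℕ →o Ideal (Ap p) := ⟨fun n => Ideal.span (seq n).1,
    fun m n h => Ideal.span_mono (hmono h)⟩
  have hin : ∀ n, ∀ f ∈ (seq n).1, f ∈ (⨆ n, J n).radical := fun n f hf =>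
    Ideal.le_radical ((le_iSup (fun n => J n) n) (Ideal.subset_span hf))
  have hout : ∀ f ∈ (⨆ n, J n).radical, ∃ n, f ∈ (Ideal.span (seq n).1).radical := by
    rintro f ⟨N, hN⟩
    obtain ⟨n, hn⟩ := (Submodule.mem_iSup_of_chain J _).1 hN
    exact ⟨n, N, hn⟩
  refine ⟨(⨆ n, J n).radical, Ideal.radical_isRadical _, fun f hf => hin 0 f hf, ?_, ?_, ?_⟩
  · intro x y
    obtain ⟨i, hi⟩ := hen (x, y, 0)
    obtain ⟨x', y', d, u, v, h1, h2, h3⟩ := (hnx (seq (Nat.pair i 0)) (x, y, 0)).2.2.1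
    have e : (seq (Nat.pair i 0 + 1)).1 = nx (seq (Nat.pair i 0)) (x, y, 0) := by
      rw [hsucc, Nat.unpair_pair, hi]
    rw [← e] at h1 h2 h3
    exact ⟨x', y', d, u, v, hin (Nat.pair i 0 + 1) _ h1, hin (Nat.pair i 0 + 1) _ h2,
      hin (Nat.pair i 0 + 1) _ h3⟩
  · intro x y z α β γ h
    obtain ⟨n, hn⟩ := hout _ h
    obtain ⟨i, hi⟩ := hen (x, y, z)
    obtain ⟨e, P, Q, s, t, h1⟩ := (hnx (seq (Nat.pair i n)) (x, y, z)).2.2.2
      ⟨α, β, γ, Ideal.radical_mono (Ideal.span_mono (hmono (Nat.right_le_pair i n))) hn⟩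
    have e' : (seq (Nat.pair i n + 1)).1 = nx (seq (Nat.pair i n)) (x, y, z) := by
      rw [hsucc, Nat.unpair_pair, hi]
    rw [← e'] at h1
    exact ⟨e, P, Q, s, t, hin (Nat.pair i n + 1) _ h1⟩
  · intro P Q s t h
    obtain ⟨n, hn⟩ := hout _ h
    exact (seq n).2.2.2 (triv_of_kap (seq n).2.2.1 P Q s t hn)

end Pool.Agent.P.MP_d1604f_al
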