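import Mathlib

/-! Spans of a valuation ring to two fields, and units determined by their values on spans. -/

namespace Pool.Agent.P.MP_d1604f_al

open Polynomial

/-- `g` embeds the valuation ring `V` into a field, `r` is a local map from `V` to a field. -/
structure IsSpan {V K κ : Type} [CommRing V] [Field K] [Field κ] (g : V →+* K) (r : V →+* κ) :
    Prop where
  inj : Function.Injective g
  loc : ∀ v, r v ≠ 0 → IsUnit v
  tot : ∀ x y : V, x ∣ y ∨ y ∣ x

/-- Some unit of `V` has generic value `s` and special value `s0`. -/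
def Good {V K κ : Type} [CommRing V] [Field K] [Field κ] (g : V →+* K) (r : V →+* κ)
    (s : K) (s0 : κ) : Prop :=
  ∃ u : Vˣ, g u = s ∧ r u = s0

section
variable {V K κ : Type} [CommRing V] [Field K] [Field κ] {g : V →+* K} {r : V →+* κ}

lemma map_units_zpow (g : V →+* K) (u : Vˣ) (n : ℤ) : g ((u ^ n : Vˣ) : V) = (g u) ^ n := by
  have h : g ((u ^ n : Vˣ) : V) = ((Units.map (g : V →* K) (u ^ n) : Kˣ) : K) := rfl
  rw [h, map_zpow, Units.val_zpow_eq_zpow_val]
  rfl

lemma Good.mul {s t : K} {s0 t0 : κ} (h : Good g r s s0) (h' : Good g r t t0) :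
    Good g r (s * t) (s0 * t0) := by
  obtain ⟨u, h1, h2⟩ := h
  obtain ⟨v, h3, h4⟩ := h'
  exact ⟨u * v, by rw [Units.val_mul, map_mul, h1, h3], by rw [Units.val_mul, map_mul, h2, h4]⟩

lemma Good.zpow {s : K} {s0 : κ} (h : Good g r s s0) (n : ℤ) : Good g r (s ^ n) (s0 ^ n) := by
  obtain ⟨u, h1, h2⟩ := h
  exact ⟨u ^ n, by rw [map_units_zpow, h1], by rw [map_units_zpow, h2]⟩

lemma Good.of_isUnit {v : V} (h : IsUnit v) : Good g r (g v) (r v) := by
  obtain ⟨u, rfl⟩ := h
  exact ⟨u, rfl, rfl⟩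

lemma Good.one : Good g r 1 1 := ⟨1, by simp, by simp⟩

lemma Good.ne_zero {s : K} {s0 : κ} (h : Good g r s s0) : s ≠ 0 ∧ s0 ≠ 0 := by
  obtain ⟨u, h1, h2⟩ := h
  exact ⟨h1 ▸ (u.isUnit.map g).ne_zero, h2 ▸ (u.isUnit.map r).ne_zero⟩

lemma Good.unique (hg : Function.Injective g) {s : K} {s0 s1 : κ} (h : Good g r s s0)
    (h' : Good g r s s1) : s0 = s1 := by
  obtain ⟨u, h1, h2⟩ := h
  obtain ⟨v, h3, h4⟩ := h'
  have : (u : V) = v := hg (h1.trans h3.symm)
  rw [← h2, ← h4, this]

lemma IsSpan.eq_zero (h : IsSpan g r) {v : V} (hv : g v = 0) : v = 0 :=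
  h.inj (hv.trans (map_zero g).symm)

lemma IsSpan.of_field (K : Type) [Field K] : IsSpan (RingHom.id K) (RingHom.id K) where
  inj := fun _ _ h => h
  loc := fun _ h => IsUnit.mk0 _ h
  tot := fun x y => by
    by_cases hx : x = 0
    · right; simp [hx]
    · left; exact (IsUnit.mk0 _ hx).dvd

end

lemma span_of_hom {D : Type} [CommRing D] [IsDomain D] [IsBezout D] {κ : Type} [Field κ]
    (r : D →+* κ) : ∃ (V : Type) (_ : CommRing V) (ι : D →+* V) (g : V →+* FractionRing D)
      (r' : V →+* κ), IsSpan g r' ∧ g.comp ι = algebraMap D (FractionRing D) ∧ r'.comp ι = r ∧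
      ∀ v : V, ∃ a b : D, r b ≠ 0 ∧ v * ι b = ι a := by
  have : (RingHom.ker r).IsPrime := RingHom.ker_isPrime r
  let M := (RingHom.ker r).primeCompl
  let V := Localization M
  have hM : ∀ y : M, r y ≠ 0 := fun y => y.2
  have hM0 : ∀ y : M, (y : D) ≠ 0 := fun y h => hM y (by rw [h, map_zero])
  have hgu : ∀ y : M, IsUnit (algebraMap D (FractionRing D) y) := fun y =>
    IsUnit.mk0 _ (by simpa using hM0 y)
  have hru : ∀ y : M, IsUnit (r y) := fun y => IsUnit.mk0 _ (hM y)
  have hsurj : ∀ v : V, ∃ (a : D) (b : M), v * algebraMap D V b = algebraMap D V a := by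
    intro v
    obtain ⟨⟨a, b⟩, h⟩ := IsLocalization.surj M v
    exact ⟨a, b, h⟩
  have hunit : ∀ a : D, r a ≠ 0 → IsUnit (algebraMap D V a) := fun a ha =>
    IsLocalization.map_units V (⟨a, ha⟩ : M)
  refine ⟨V, inferInstance, algebraMap D V, IsLocalization.lift hgu, IsLocalization.lift hru,
    ⟨?_, ?_, ?_⟩, IsLocalization.lift_comp hgu, IsLocalization.lift_comp hru, ?_⟩
  · rw [injective_iff_map_eq_zero]
    intro v hv
    obtain ⟨a, b, h⟩ := hsurj v
    have h1 := congrArg (IsLocalization.lift (S := V) hgu) h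
    rw [map_mul, hv, zero_mul, IsLocalization.lift_eq] at h1
    have ha : a = 0 := by simpa using h1.symm
    rw [ha, map_zero] at h
    exact (IsLocalization.map_units V b).mul_left_eq_zero.1 h
  · intro v hv
    obtain ⟨a, b, h⟩ := hsurj v
    have h1 := congrArg (IsLocalization.lift (S := V) hru) h
    rw [map_mul, IsLocalization.lift_eq, IsLocalization.lift_eq] at h1
    have ha : r a ≠ 0 := by rw [← h1]; exact mul_ne_zero hv (hM b)
    exact isUnit_of_mul_isUnit_left (h ▸ hunit a ha)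
  · have key : ∀ a a' : D, algebraMap D V a ∣ algebraMap D V a' ∨
        algebraMap D V a' ∣ algebraMap D V a := by
      intro a a'
      obtain ⟨x, hx⟩ := IsBezout.gcd_dvd_left a a'
      obtain ⟨y, hy⟩ := IsBezout.gcd_dvd_right a a'
      obtain ⟨u, v, huv⟩ := IsBezout.gcd_eq_sum a a'
      set d := IsBezout.gcd a a'
      by_cases hd : d = 0
      · left; rw [hy, hd, zero_mul, map_zero]; exact dvd_zero _
      have h1 : u * x + v * y = 1 := by
        apply mul_left_cancel₀ hd
        rw [hx, hy] at huv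
        linear_combination huv
      by_cases hrx : r x = 0
      · have hry : r y ≠ 0 := by
          intro hry
          have := congrArg r h1
          simp [hrx, hry] at this
        right
        rw [hx, hy, map_mul, map_mul]
        exact mul_dvd_mul_left _ (hunit y hry).dvd
      · left
        rw [hx, hy, map_mul, map_mul]
        exact mul_dvd_mul_left _ (hunit x hrx).dvd
    intro v w
    obtain ⟨a, b, h⟩ := hsurj v
    obtain ⟨a', b', h'⟩ := hsurj w
    have hb := IsLocalization.map_units V b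
    have hb' := IsLocalization.map_units V b'
    rcases key a a' with h1 | h1
    · left
      rw [← h, ← h'] at h1
      exact hb'.dvd_mul_right.1 ((dvd_mul_right _ _).trans h1)
    · right
      rw [← h, ← h'] at h1
      exact hb.dvd_mul_right.1 ((dvd_mul_right _ _).trans h1)
  · intro v
    obtain ⟨a, b, h⟩ := hsurj v
    exact ⟨a, b, hM b, h⟩

lemma mem_range_of_local {D : Type} [CommRing D] [IsDomain D] (t : FractionRing D)
    (h : ∀ (κ : Type) [Field κ] (r : D →+* κ), ∃ a b : D, r b ≠ 0 ∧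
      t * algebraMap D (FractionRing D) b = algebraMap D (FractionRing D) a) :
    ∃ a : D, algebraMap D (FractionRing D) a = t := by
  let J : Ideal D :=
    { carrier := {b | ∃ a, t * algebraMap D (FractionRing D) b = algebraMap D (FractionRing D) a}
      add_mem' := by
        rintro b b' ⟨a, ha⟩ ⟨a', ha'⟩
        exact ⟨a + a', by rw [map_add, map_add, mul_add, ha, ha']⟩
      zero_mem' := ⟨0, by simp⟩
      smul_mem' := by
        rintro c b ⟨a, ha⟩
        exact ⟨c * a, by rw [smul_eq_mul, map_mul, map_mul, ← ha]; ring⟩ }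
  by_cases hJ : J = ⊤
  · have h1 : (1 : D) ∈ J := hJ ▸ Submodule.mem_top
    obtain ⟨a, ha⟩ := h1
    exact ⟨a, by rw [← ha, map_one, mul_one]⟩
  · obtain ⟨m, hm, hJm⟩ := Ideal.exists_le_maximal J hJ
    let _ := Ideal.Quotient.field m
    obtain ⟨a, b, hb, hab⟩ := h (D ⧸ m) (Ideal.Quotient.mk m)
    exact absurd (Ideal.Quotient.eq_zero_iff_mem.2 (hJm ⟨a, hab⟩)) hb

/-- An element of the fraction field of a Bezout domain that is a unit on all spans is a unit. -/
lemma unit_of_spans {D : Type} [CommRing D] [IsDomain D] [IsBezout D] (s : FractionRing D)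
    (val : ∀ (κ : Type) [Field κ], (D →+* κ) → κ)
    (h : ∀ (V κ : Type) [CommRing V] [Field κ] (ι : D →+* V) (g : V →+* FractionRing D)
      (r : V →+* κ), IsSpan g r → g.comp ι = algebraMap D (FractionRing D) →
      Good g r s (val κ (r.comp ι))) :
    ∃ u : Dˣ, ∀ (κ : Type) [Field κ] (r : D →+* κ), r u = val κ r := by
  have hloc : ∀ n : ℤ, ∃ a : D, algebraMap D (FractionRing D) a = s ^ n := by
    intro n
    apply mem_range_of_local
    intro κ _ r
    obtain ⟨V, _, ι, g, r', hs, hg, hr, hv⟩ := span_of_hom r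
    obtain ⟨u, hu, -⟩ := (h V κ ι g r' hs hg).zpow n
    obtain ⟨a, b, hb, hab⟩ := hv u
    refine ⟨a, b, hb, ?_⟩
    have := congrArg g hab
    rw [map_mul, hu] at this
    rw [← hg]
    exact this
  obtain ⟨a, ha⟩ := hloc 1
  obtain ⟨a', ha'⟩ := hloc (-1)
  have hs0 : s ≠ 0 := by
    obtain ⟨V, _, ι, g, r', hs, hg, hr, hv⟩ := span_of_hom (algebraMap D (FractionRing D))
    exact (h V _ ι g r' hs hg).ne_zero.1
  have haa : a * a' = 1 := by
    apply IsFractionRing.injective D (FractionRing D)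
    rw [map_mul, ha, ha', map_one, ← zpow_add₀ hs0]
    simp
  refine ⟨Units.mkOfMulEqOne a a' haa, fun κ _ r => ?_⟩
  obtain ⟨V, _, ι, g, r', hs, hg, hr, hv⟩ := span_of_hom r
  obtain ⟨u, hu, hu'⟩ := h V κ ι g r' hs hg
  have h1 : (u : V) = ι a := by
    apply hs.inj
    rw [hu, ← RingHom.comp_apply, hg, ha, zpow_one]
  rw [hr] at hu'
  rw [← hu', h1, ← RingHom.comp_apply, hr]
  rfl

open LaurentPolynomial in
lemma laurent_isBezout (K : Type) [Field K] : IsBezout K[T;T⁻¹] := by
  rw [IsBezout.iff_span_pair_isPrincipal]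
  intro x y
  obtain ⟨n, f, hf⟩ := exists_T_pow x
  obtain ⟨m, f', hf'⟩ := exists_T_pow y
  obtain ⟨a, ha⟩ := IsBezout.gcd_dvd_left f f'
  obtain ⟨b, hb⟩ := IsBezout.gcd_dvd_right f f'
  obtain ⟨u, v, huv⟩ := IsBezout.gcd_eq_sum f f'
  set d := IsBezout.gcd f f'
  refine ⟨⟨toLaurent d, ?_⟩⟩
  apply le_antisymm
  · rw [Ideal.span_le]
    intro z hz
    rcases hz with rfl | rfl
    · refine Ideal.mem_span_singleton.2 ((isUnit_T (n : ℤ)).dvd_mul_right.1 ?_)
      rw [← hf, ha, map_mul]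
      exact dvd_mul_right _ _
    · refine Ideal.mem_span_singleton.2 ((isUnit_T (m : ℤ)).dvd_mul_right.1 ?_)
      rw [← hf', hb, map_mul]
      exact dvd_mul_right _ _
  · rw [Ideal.submodule_span_eq, Ideal.span_singleton_le_iff_mem, Ideal.mem_span_pair]
    refine ⟨toLaurent u * T n, toLaurent v * T m, ?_⟩
    rw [← huv, map_add, map_mul, map_mul, hf, hf']
    ring

open LaurentPolynomial in
lemma laurent_unit {K : Type} [Field K] (u : K[T;T⁻¹]ˣ) :
    ∃ (c : K) (j : ℤ), (u : K[T;T⁻¹]) = LaurentPolynomial.C c * T j := by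
  obtain ⟨n, f, hf⟩ := exists_T_pow (u : K[T;T⁻¹])
  obtain ⟨m, f', hf'⟩ := exists_T_pow ((u⁻¹ : K[T;T⁻¹]ˣ) : K[T;T⁻¹])
  have h1 : f * f' = X ^ (n + m) := by
    apply Polynomial.toLaurent_injective
    rw [map_mul, hf, hf', Polynomial.toLaurent_X_pow]
    rw [mul_mul_mul_comm, Units.mul_inv, one_mul, ← T_add]
    simp
  obtain ⟨i, -, v, hv⟩ := (dvd_prime_pow (Polynomial.prime_X (R := K)) (n + m)).1 ⟨f', h1.symm⟩
  obtain ⟨c, -, hc⟩ := Polynomial.isUnit_iff.1 (v⁻¹).isUnit
  have h2 : f = Polynomial.C c * X ^ i := by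
    rw [← hv, hc, mul_comm f, ← mul_assoc, Units.inv_mul, one_mul]
  refine ⟨c, (i : ℤ) - n, ?_⟩
  apply (isUnit_T (n : ℤ)).mul_right_cancel
  rw [← hf, h2, mul_assoc, ← T_add]
  simp

end Pool.Agent.P.MP_d1604f_al
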